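import Mathlib
import Pool.Agent.TH160.Stm

set_option autoImplicit false

namespace Pool.Agent.TH182.J337

open TH160 MvPolynomial

abbrev V := Fin 3 ⊕ Fin 2
abbrev R := MvPolynomial V ℂ

section scale
variable {Q : Type} [Field Q] [Algebra ℂ Q]

/-- scaling -/
lemma aeval_scale (α β : Q) (y : V → Q) {G : R} {n : ℕ × ℕ}
    (hG : IsWeightedHomogeneous bideg G n) :
    aeval (fun k => α ^ (bideg k).1 * β ^ (bideg k).2 * y k) G =
      α ^ n.1 * β ^ n.2 * aeval y G := by
  rw [aeval_def, aeval_def, eval₂_eq', eval₂_eq', Finset.mul_sum]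
  refine Finset.sum_congr rfl fun d hd => ?_
  have hw := hG (mem_support_iff.mp hd)
  rw [Finsupp.weight_apply, Finsupp.sum_fintype _ _ (by simp)] at hw
  have h1 : ∑ k, (bideg k).1 * d k = n.1 := by
    rw [← hw, Prod.fst_sum]
    exact Finset.sum_congr rfl fun k _ => by simp [mul_comm]
  have h2 : ∑ k, (bideg k).2 * d k = n.2 := by
    rw [← hw, Prod.snd_sum]
    exact Finset.sum_congr rfl fun k _ => by simp [mul_comm]
  rw [← h1, ← h2]
  simp_rw [mul_pow]
  rw [Finset.prod_mul_distrib, Finset.prod_mul_distrib, ← Finset.prod_pow_eq_pow_sum,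
    ← Finset.prod_pow_eq_pow_sum]
  simp_rw [← pow_mul]
  ring

/-- dehomogenised coordinates -/
noncomputable def deh (xb : V → Q) : V → Q :=
  Sum.elim (fun i => xb (Sum.inl i) / xb (Sum.inl 0)) (fun j => xb (Sum.inr j) / xb (Sum.inr 1))

lemma aeval_deh (xb : V → Q) (h0 : xb (Sum.inl 0) ≠ 0) (h1 : xb (Sum.inr 1) ≠ 0)
    {G : R} {n : ℕ × ℕ} (hG : IsWeightedHomogeneous bideg G n) :
    aeval xb G = xb (Sum.inl 0) ^ n.1 * xb (Sum.inr 1) ^ n.2 * aeval (deh xb) G := by
  rw [← aeval_scale _ _ _ hG]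
  congr 2
  funext k
  rcases k with i | j
  · simp [bideg, deh]
    field_simp
  · simp [bideg, deh]
    field_simp

end scale

lemma hom_X (k : V) : IsWeightedHomogeneous bideg (X k : R) (bideg k) :=
  isWeightedHomogeneous_X _ _ _

lemma hom_Feq (b : ℂ) : IsWeightedHomogeneous bideg (Feq b) (3, 4) := by
  have e4 : (4 : R) = C 4 := (map_ofNat C 4).symm
  have e2 : (2 : R) = C 2 := (map_ofNat C 2).symm
  have hx0 : IsWeightedHomogeneous bideg x0 (1, 0) := hom_X _
  have hx1 : IsWeightedHomogeneous bideg x1 (1, 0) := hom_X _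
  have hx2 : IsWeightedHomogeneous bideg x2 (1, 0) := hom_X _
  have hs0 : IsWeightedHomogeneous bideg s0 (0, 1) := hom_X _
  have hs1 : IsWeightedHomogeneous bideg s1 (0, 1) := hom_X _
  have hC : ∀ c : ℂ, IsWeightedHomogeneous bideg (C c : R) (0, 0) := fun c =>
    isWeightedHomogeneous_C _ _
  have q1 : IsWeightedHomogeneous bideg (s0 ^ 2 + C (2 * b) * s0 * s1 + 4 * s1 ^ 2) (0, 2) := by
    rw [e4]
    exact ((hs0.pow 2).add (((hC _).mul hs0).mul hs1)).add ((hC _).mul (hs1.pow 2))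
  have q2 : IsWeightedHomogeneous bideg (s0 ^ 2 - 2 * s0 * s1 + 4 * s1 ^ 2) (0, 2) := by
    rw [e4, e2]
    exact ((hs0.pow 2).sub (((hC _).mul hs0).mul hs1)).add ((hC _).mul (hs1.pow 2))
  have q3 : IsWeightedHomogeneous bideg (s0 ^ 2 - C (2 * b) * s0 * s1 + 4 * s1 ^ 2) (0, 2) := by
    rw [e4]
    exact ((hs0.pow 2).sub (((hC _).mul hs0).mul hs1)).add ((hC _).mul (hs1.pow 2))
  have q4 : IsWeightedHomogeneous bideg (s0 ^ 2 + 4 * s1 ^ 2) (0, 2) := by
    rw [e4]
    exact (hs0.pow 2).add ((hC _).mul (hs1.pow 2))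
  have q5 : IsWeightedHomogeneous bideg (s0 ^ 2 + 2 * s0 * s1 + 4 * s1 ^ 2) (0, 2) := by
    rw [e4, e2]
    exact ((hs0.pow 2).add (((hC _).mul hs0).mul hs1)).add ((hC _).mul (hs1.pow 2))
  have q6 : IsWeightedHomogeneous bideg (2 * s0 * s1) (0, 2) := by
    rw [e2]
    exact ((hC _).mul hs0).mul hs1
  unfold Feq
  exact (((q1.mul q2).mul (hx0.pow 3)).add ((q6.mul q3).mul (hx1.pow 3))).add
    ((q4.mul q5).mul (hx2.pow 3))

lemma not_dvd_x0 (b : ℂ) : ¬ Feq b ∣ X (Sum.inl 0) := by
  rintro ⟨g, hg⟩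
  have h := congrArg (eval (Sum.elim ![1, 0, -1] ![1, 0] : V → ℂ)) hg
  simp [Feq] at h
  norm_num at h

lemma not_dvd_s1 (b : ℂ) : ¬ Feq b ∣ X (Sum.inr 1) := by
  rintro ⟨g, hg⟩
  have h := congrArg (eval (Sum.elim ![1, 0, -1] ![0, 1] : V → ℂ)) hg
  simp [Feq] at h
  norm_num at h

theorem stmEx : StmEx := by
  intro b hirr
  have hprime : Prime (Feq b) := hirr.prime
  let I : Ideal R := Ideal.span {Feq b}
  have hI : I.IsPrime := (Ideal.span_singleton_prime hprime.ne_zero).mpr hprime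
  let A := R ⧸ I
  let Q := FractionRing A
  let π : R →ₐ[ℂ] Q := (IsScalarTower.toAlgHom ℂ A Q).comp (Ideal.Quotient.mkₐ ℂ I)
  have hπ : ∀ G, π G = 0 ↔ Feq b ∣ G := by
    intro G
    change algebraMap A Q (Ideal.Quotient.mk I G) = 0 ↔ _
    rw [map_eq_zero_iff _ (IsFractionRing.injective A Q), Ideal.Quotient.eq_zero_iff_mem,
      Ideal.mem_span_singleton]
  let xb : V → Q := fun k => π (X k)
  have hxb : ∀ G, aeval xb G = π G := by
    intro G
    have : π = aeval xb := by
      apply MvPolynomial.algHom_ext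
      intro k
      simp [xb]
    rw [this]
  have h0 : xb (Sum.inl 0) ≠ 0 := fun h => not_dvd_x0 b ((hπ _).mp h)
  have h1 : xb (Sum.inr 1) ≠ 0 := fun h => not_dvd_s1 b ((hπ _).mp h)
  let L : IntermediateField ℂ Q :=
    { carrier := {z | ∃ (n : ℕ × ℕ) (G H : R), IsWeightedHomogeneous bideg G n ∧
        IsWeightedHomogeneous bideg H n ∧ π H ≠ 0 ∧ z * π H = π G}
      mul_mem' := by
        rintro z w ⟨n, G, H, hG, hH, hH0, hz⟩ ⟨m, G', H', hG', hH', hH0', hz'⟩
        refine ⟨n + m, G * G', H * H', hG.mul hG', hH.mul hH', ?_, ?_⟩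
        · rw [map_mul]; exact mul_ne_zero hH0 hH0'
        · rw [map_mul, map_mul, ← hz, ← hz']; ring
      add_mem' := by
        rintro z w ⟨n, G, H, hG, hH, hH0, hz⟩ ⟨m, G', H', hG', hH', hH0', hz'⟩
        refine ⟨n + m, G * H' + H * G', H * H', (hG.mul hH').add (hH.mul hG'),
          hH.mul hH', ?_, ?_⟩
        · rw [map_mul]; exact mul_ne_zero hH0 hH0'
        · rw [map_mul, map_add, map_mul, map_mul, ← hz, ← hz']; ring
      algebraMap_mem' := by
        intro c
        refine ⟨0, C c, 1, isWeightedHomogeneous_C _ _, isWeightedHomogeneous_one _ _, ?_, ?_⟩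
        · rw [map_one]; exact one_ne_zero
        · rw [map_one, mul_one, ← MvPolynomial.algebraMap_eq, AlgHom.commutes]
      inv_mem' := by
        rintro z ⟨n, G, H, hG, hH, hH0, hz⟩
        by_cases hz0 : z = 0
        · rw [hz0, inv_zero]
          refine ⟨n, 0, H, isWeightedHomogeneous_zero _ _ _, hH, hH0, by rw [map_zero, zero_mul]⟩
        · refine ⟨n, H, G, hH, hG, ?_, ?_⟩
          · rw [← hz]; exact mul_ne_zero hz0 hH0
          · rw [← hz, inv_mul_cancel_left₀ hz0] }
  have hmem : ∀ k, deh xb k ∈ L := by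
    intro k
    rcases k with i | j
    · refine ⟨(1, 0), X (Sum.inl i), X (Sum.inl 0), hom_X _, hom_X _, h0, ?_⟩
      exact div_mul_cancel₀ _ h0
    · refine ⟨(0, 1), X (Sum.inr j), X (Sum.inr 1), hom_X _, hom_X _, h1, ?_⟩
      exact div_mul_cancel₀ _ h1
  let x : V → L := fun k => ⟨deh xb k, hmem k⟩
  have hcoe : ∀ G : R, ((aeval x G : L) : Q) = aeval (deh xb) G := by
    intro G
    have : (L.val.comp (aeval x) : R →ₐ[ℂ] Q) = aeval (deh xb) := by
      apply MvPolynomial.algHom_ext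
      intro k
      simp [x]
    exact congrArg (fun f => f G) this
  have hrel : ∀ {G : R} {n : ℕ × ℕ}, IsWeightedHomogeneous bideg G n →
      π G = xb (Sum.inl 0) ^ n.1 * xb (Sum.inr 1) ^ n.2 * ((aeval x G : L) : Q) := by
    intro G n hG
    rw [hcoe, ← aeval_deh xb h0 h1 hG, hxb]
  have hunit : ∀ n : ℕ × ℕ, xb (Sum.inl 0) ^ n.1 * xb (Sum.inr 1) ^ n.2 ≠ 0 := fun n =>
    mul_ne_zero (pow_ne_zero _ h0) (pow_ne_zero _ h1)
  refine ⟨L, inferInstance, inferInstance, x, ⟨?_, ?_⟩⟩
  · intro n G hG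
    rw [← hπ, hrel hG, mul_eq_zero, or_iff_right (hunit n)]
    exact (ZeroMemClass.coe_eq_zero).symm
  · rintro ⟨z, n, G, H, hG, hH, hH0, hz⟩
    refine ⟨n, G, H, hG, hH, ?_, ?_⟩
    · intro h
      apply hH0
      rw [hrel hH, h]
      simp
    · apply Subtype.ext
      change z = ((aeval x G / aeval x H : L) : Q)
      have e : ((aeval x G / aeval x H : L) : Q) = ((aeval x G : L) : Q) / ((aeval x H : L) : Q) :=
        rfl
      rw [e]
      have hH1 : ((aeval x H : L) : Q) ≠ 0 := by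
        intro h
        apply hH0
        rw [hrel hH, h, mul_zero]
      rw [eq_div_iff hH1]
      rw [hrel hH, hrel hG] at hz
      apply mul_left_cancel₀ (hunit n)
      linear_combination hz

section FF
variable {b : ℂ} {L : Type} [Field L] [Algebra ℂ L] {x : V → L}

/-- homogenisation of a polynomial in `t`, `y` -/
noncomputable def homog (p : MvPolynomial (Fin 2) ℂ) (N : ℕ) : R :=
  ∑ d ∈ p.support, C (p.coeff d) * X (Sum.inr 0) ^ (d 0) * X (Sum.inr 1) ^ (N - d 0) *
    X (Sum.inl 1) ^ (d 1) * X (Sum.inl 0) ^ (N - d 1)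

lemma le_total (p : MvPolynomial (Fin 2) ℂ) {d : Fin 2 →₀ ℕ} (hd : d ∈ p.support) (i : Fin 2) :
    d i ≤ p.totalDegree := by
  have h := le_totalDegree hd
  refine le_trans ?_ h
  rw [Finsupp.sum_fintype _ _ (by simp), Fin.sum_univ_two]
  fin_cases i <;> simp

lemma hom_homog (p : MvPolynomial (Fin 2) ℂ) :
    IsWeightedHomogeneous bideg (homog p p.totalDegree) (p.totalDegree, p.totalDegree) := by
  refine IsWeightedHomogeneous.sum _ _ _ fun d hd => ?_
  have h0 := le_total p hd 0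
  have h1 := le_total p hd 1
  have := ((((isWeightedHomogeneous_C bideg (p.coeff d)).mul ((hom_X (Sum.inr 0)).pow (d 0))).mul
    ((hom_X (Sum.inr 1)).pow (p.totalDegree - d 0))).mul ((hom_X (Sum.inl 1)).pow (d 1))).mul
    ((hom_X (Sum.inl 0)).pow (p.totalDegree - d 1))
  convert this using 1
  simp [bideg]
  omega

lemma aeval_homog {Q : Type} [Field Q] [Algebra ℂ Q] (p : MvPolynomial (Fin 2) ℂ) (y : V → Q)
    (h0 : y (Sum.inl 0) ≠ 0) (h1 : y (Sum.inr 1) ≠ 0) :
    aeval y (homog p p.totalDegree) = y (Sum.inl 0) ^ p.totalDegree * y (Sum.inr 1) ^ p.totalDegree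
      * aeval ![y (Sum.inr 0) / y (Sum.inr 1), y (Sum.inl 1) / y (Sum.inl 0)] p := by
  unfold homog
  rw [map_sum, aeval_def (p := p), eval₂_eq', Finset.mul_sum]
  refine Finset.sum_congr rfl fun d hd => ?_
  have e0 := le_total p hd 0
  have e1 := le_total p hd 1
  rw [Fin.prod_univ_two]
  simp only [map_mul, map_pow, aeval_X, aeval_C, Matrix.cons_val_zero, Matrix.cons_val_one]
  rw [div_pow, div_pow]
  have f0 : y (Sum.inr 1) ^ p.totalDegree = y (Sum.inr 1) ^ (d 0) *
    y (Sum.inr 1) ^ (p.totalDegree - d 0) := by rw [← pow_add]; congr 1; omega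
  have f1 : y (Sum.inl 0) ^ p.totalDegree = y (Sum.inl 0) ^ (d 1) *
    y (Sum.inl 0) ^ (p.totalDegree - d 1) := by rw [← pow_add]; congr 1; omega
  rw [f0, f1]
  field_simp

theorem stmFF : StmFF := by
  intro b L _ _ x hx
  have h0 : x (Sum.inl 0) ≠ 0 := by
    intro h
    apply not_dvd_x0 b
    rw [← hx.zero_iff (1, 0) _ (hom_X _), aeval_X, h]
  have h1 : x (Sum.inr 1) ≠ 0 := by
    intro h
    apply not_dvd_s1 b
    rw [← hx.zero_iff (0, 1) _ (hom_X _), aeval_X, h]
  have hf : aeval x (Feq b) = 0 := (hx.zero_iff _ _ (hom_Feq b)).mpr dvd_rfl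
  refine ⟨x (Sum.inr 0) / x (Sum.inr 1), x (Sum.inl 1) / x (Sum.inl 0),
    x (Sum.inl 2) / x (Sum.inl 0), ?_, ?_, ?_⟩
  · rw [algebraicIndependent_iff]
    intro p hp
    have hG : aeval x (homog p p.totalDegree) = 0 := by
      rw [aeval_homog p x h0 h1, hp, mul_zero]
    rw [hx.zero_iff _ _ (hom_homog p)] at hG
    obtain ⟨g, hg⟩ := hG
    set q : MvPolynomial (Fin 2) ℂ := (X 0 ^ 2 + 4) * (X 0 ^ 2 + 2 * X 0 + 4) with hq
    have hq0 : q ≠ 0 := by
      intro h
      have := congrArg (eval ![0, 0]) h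
      simp [hq] at this
    have hpq : p * q = 0 := by
      apply MvPolynomial.funext
      intro c
      rw [map_zero, map_mul]
      by_cases hc : eval c q = 0
      · rw [hc, mul_zero]
      · set A : ℂ := (c 0 ^ 2 + 2 * b * c 0 + 4) * (c 0 ^ 2 - 2 * c 0 + 4) +
          2 * c 0 * (c 0 ^ 2 - 2 * b * c 0 + 4) * c 1 ^ 3 with hA
        obtain ⟨w, hw⟩ := IsAlgClosed.exists_pow_nat_eq (-A / eval c q) (n := 3) (by norm_num)
        set a : V → ℂ := Sum.elim ![1, c 1, w] ![c 0, 1] with ha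
        have h2 := congrArg (eval a) hg
        have h3 : eval a (Feq b) = 0 := by
          have e : eval a (Feq b) = A + eval c q * w ^ 3 := by
            simp [Feq, ha, hA, hq]
          rw [e, hw]
          field_simp
          ring
        rw [map_mul, h3, zero_mul] at h2
        have h4 := aeval_homog p a (by simp [ha]) (by simp [ha])
        have h5 : aeval a (homog p p.totalDegree) = eval a (homog p p.totalDegree) := rfl
        rw [h5, h2] at h4
        have h6 : (![a (Sum.inr 0) / a (Sum.inr 1), a (Sum.inl 1) / a (Sum.inl 0)] : Fin 2 → ℂ)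
            = c := by
          funext i
          fin_cases i <;> simp [ha]
        rw [h6] at h4
        have h7 : aeval c p = eval c p := rfl
        rw [h7] at h4
        simp [ha] at h4
        rw [← h4, zero_mul]
    exact (mul_eq_zero.mp hpq).resolve_right hq0
  · have e : aeval x (Feq b) = x (Sum.inl 0) ^ 3 * x (Sum.inr 1) ^ 4 *
        (Polynomial.aeval (x (Sum.inr 0) / x (Sum.inr 1)) (pA b) +
        Polynomial.aeval (x (Sum.inr 0) / x (Sum.inr 1)) (pB b) *
          (x (Sum.inl 1) / x (Sum.inl 0)) ^ 3 +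
        Polynomial.aeval (x (Sum.inr 0) / x (Sum.inr 1)) pC *
          (x (Sum.inl 2) / x (Sum.inl 0)) ^ 3) := by
      simp only [Feq, pA, pB, pC, map_add, map_sub, map_mul, map_pow, aeval_X, aeval_C,
        Polynomial.aeval_X, Polynomial.aeval_C, map_ofNat]
      field_simp
    rw [e] at hf
    exact (mul_eq_zero.mp hf).resolve_left
      (mul_ne_zero (pow_ne_zero _ h0) (pow_ne_zero _ h1))
  · rw [eq_top_iff]
    intro z _
    set E := IntermediateField.adjoin ℂ ({x (Sum.inr 0) / x (Sum.inr 1),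
      x (Sum.inl 1) / x (Sum.inl 0), x (Sum.inl 2) / x (Sum.inl 0)} : Set L) with hE
    have hmem : ∀ k, deh x k ∈ E := by
      intro k
      rcases k with i | j
      · fin_cases i
        · simp only [deh, Sum.elim_inl]
          change x (Sum.inl 0) / x (Sum.inl 0) ∈ E
          rw [div_self h0]; exact E.one_mem
        · exact IntermediateField.subset_adjoin ℂ _ (by simp [deh])
        · exact IntermediateField.subset_adjoin ℂ _ (by simp [deh])
      · fin_cases j
        · exact IntermediateField.subset_adjoin ℂ _ (by simp [deh])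
        · simp only [deh, Sum.elim_inr]
          change x (Sum.inr 1) / x (Sum.inr 1) ∈ E
          rw [div_self h1]; exact E.one_mem
    have hmem2 : ∀ G : R, aeval (deh x) G ∈ E := by
      intro G
      let x' : V → E := fun k => ⟨deh x k, hmem k⟩
      have : (E.val.comp (aeval x') : R →ₐ[ℂ] L) = aeval (deh x) := by
        apply MvPolynomial.algHom_ext
        intro k
        simp [x']
      rw [← this]
      exact (aeval x' G).2
    obtain ⟨n, G, H, hG, hH, hH0, rfl⟩ := hx.surj z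
    rw [aeval_deh x h0 h1 hG, aeval_deh x h0 h1 hH, mul_div_mul_left _ _
      (mul_ne_zero (pow_ne_zero _ h0) (pow_ne_zero _ h1))]
    exact E.div_mem (hmem2 G) (hmem2 H)

end FF

end Pool.Agent.TH182.J337
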