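import Mathlib
import Pool.Agent.TH160.Stm

set_option autoImplicit false
set_option linter.style.haveILetI false

open Polynomial TensorProduct

namespace Pool.Agent.TH182.J325

open TH160

section
variable {L : Type} [Field L] [Algebra ℂ L] {x : Fin 2 → L}

lemma exists_basis (hx : AlgebraicIndependent ℂ x)
    (halg : Algebra.IsAlgebraic (IntermediateField.adjoin ℂ (Set.range x)) L) :
    ∃ b : Module.Basis (Fin 2) L (Ω[L⁄ℂ]), ∀ i, b i = KaehlerDifferential.D ℂ L (x i) := by
  let S := MvPolynomial (Fin 2) ℂ
  let F0 := FractionRing S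
  letI a1 : Algebra F0 L :=
    ((IntermediateField.val _).comp hx.aevalEquivField.toAlgHom).toRingHom.toAlgebra
  letI a2 : Algebra S L := (MvPolynomial.aeval x).toRingHom.toAlgebra
  have hF0L : ∀ z : F0, algebraMap F0 L z = (hx.aevalEquivField z : L) := fun z => rfl
  have hSL : ∀ z : S, algebraMap S L z = MvPolynomial.aeval x z := fun z => rfl
  haveI t1 : IsScalarTower S F0 L := IsScalarTower.of_algebraMap_eq fun z => by
    rw [hF0L, hSL, hx.aevalEquivField_algebraMap_apply_coe]
  haveI t2 : IsScalarTower ℂ S L := IsScalarTower.of_algebraMap_eq fun z => by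
    rw [hSL]
    simp [S]
  haveI : Algebra.IsAlgebraic F0 L := by
    refine Algebra.IsAlgebraic.of_ringHom_of_comp_eq
      (S := IntermediateField.adjoin ℂ (Set.range x)) (B := L)
      (hx.aevalEquivField : F0 ≃ₐ[ℂ] _) (RingHom.id L) hx.aevalEquivField.surjective
      Function.injective_id ?_
    ext z
    rfl
  haveI : CharZero F0 := charZero_of_injective_algebraMap (algebraMap ℂ F0).injective
  haveI e1 : Algebra.FormallyEtale S F0 :=
    Algebra.FormallyEtale.of_isLocalization (nonZeroDivisors S)
  haveI e2 : Algebra.FormallyEtale F0 L := Algebra.FormallyEtale.of_isSeparable F0 L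
  haveI e3 : Algebra.FormallyEtale S L := Algebra.FormallyEtale.comp S F0 L
  let b0 := ((KaehlerDifferential.mvPolynomialBasis ℂ (Fin 2)).baseChange L).map
    (KaehlerDifferential.tensorKaehlerEquivOfFormallyEtale ℂ S L)
  refine ⟨b0, fun i => ?_⟩
  simp only [b0]
  rw [Module.Basis.map_apply, Module.Basis.baseChange_apply,
    KaehlerDifferential.mvPolynomialBasis_apply,
    KaehlerDifferential.tensorKaehlerEquivOfFormallyEtale_apply,
    KaehlerDifferential.mapBaseChange_tmul, one_smul, KaehlerDifferential.map_D, hSL,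
    MvPolynomial.aeval_X]

end

lemma range_pair {L : Type} (u v : L) : Set.range ![u, v] = {u, v} := by
  simp [Matrix.range_cons, Matrix.range_empty, Set.pair_comm]

theorem stmDer : StmDer := by
  intro L _ _ u v hind halg
  rw [← range_pair u v] at halg
  obtain ⟨b, hb⟩ := exists_basis hind halg
  have hu : KaehlerDifferential.D ℂ L u = b 0 := by rw [hb 0]; rfl
  have hv : KaehlerDifferential.D ℂ L v = b 1 := by rw [hb 1]; rfl
  refine ⟨(b.coord 0).compDer (KaehlerDifferential.D ℂ L),
    (b.coord 1).compDer (KaehlerDifferential.D ℂ L), ?_, ?_, ?_, ?_, ?_⟩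
  · change b.coord 0 (KaehlerDifferential.D ℂ L u) = 1
    rw [hu, Module.Basis.coord_apply, Module.Basis.repr_self]
    simp
  · change b.coord 0 (KaehlerDifferential.D ℂ L v) = 0
    rw [hv, Module.Basis.coord_apply, Module.Basis.repr_self]
    simp
  · change b.coord 1 (KaehlerDifferential.D ℂ L u) = 0
    rw [hu, Module.Basis.coord_apply, Module.Basis.repr_self]
    simp
  · change b.coord 1 (KaehlerDifferential.D ℂ L v) = 1
    rw [hv, Module.Basis.coord_apply, Module.Basis.repr_self]
    simp
  · intro D x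
    have h1 : ∀ z, D z = D.liftKaehlerDifferential (KaehlerDifferential.D ℂ L z) := fun z =>
      (Derivation.liftKaehlerDifferential_comp_D D z).symm
    have h2 := b.sum_repr (KaehlerDifferential.D ℂ L x)
    rw [Fin.sum_univ_two] at h2
    change D x = D u * b.coord 0 (KaehlerDifferential.D ℂ L x) +
      D v * b.coord 1 (KaehlerDifferential.D ℂ L x)
    rw [h1 x, h1 u, h1 v, hu, hv]
    nth_rewrite 1 [← h2]
    rw [map_add, map_smul, map_smul, Module.Basis.coord_apply, Module.Basis.coord_apply,
      smul_eq_mul, smul_eq_mul]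
    ring

open IntermediateField.algebraAdjoinAdjoin in
theorem stmJac : StmJac := by
  intro L _ _ u v hind halg D1 D2 hD a b hab
  have h1 : Algebra.IsAlgebraic (Algebra.adjoin ℂ (Set.range ![u, v])) L := by
    rw [range_pair]
    exact IsFractionRing.comap_isAlgebraic_iff.mpr halg
  have h2 : IsTranscendenceBasis ℂ ![u, v] := hind.isTranscendenceBasis_iff_isAlgebraic.mpr h1
  have h3 : IsTranscendenceBasis ℂ ![a, b] := by
    apply hab.isTranscendenceBasis_of_trdeg_le_of_finite
    rw [h2.cardinalMk_eq_trdeg]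
  have h4 : Algebra.IsAlgebraic (Algebra.adjoin ℂ (Set.range ![a, b])) L := h3.isAlgebraic
  have h5 : Algebra.IsAlgebraic (IntermediateField.adjoin ℂ {a, b}) L := by
    rw [range_pair] at h4
    exact IsFractionRing.comap_isAlgebraic_iff.mp h4
  obtain ⟨E1, E2, hE⟩ := stmDer L a b hab h5
  intro h0
  unfold br at h0
  have e1 := hD.all E1 a
  have e2 := hD.all E1 b
  have e3 := hD.all E2 a
  have e4 := hD.all E2 b
  rw [hE.h11] at e1
  rw [hE.h12] at e2
  rw [hE.h21] at e3
  rw [hE.h22] at e4
  have : (1 : L) = (E1 u * E2 v - E2 u * E1 v) * (D1 a * D2 b - D2 a * D1 b) := by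
    linear_combination (E2 u * D1 b + E2 v * D2 b) * e1 + e4 
      - (E2 u * D1 a + E2 v * D2 a) * e2
  rw [h0, mul_zero] at this
  exact one_ne_zero this

end Pool.Agent.TH182.J325
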