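import Mathlib
import Pool.Agent.TH160.Stm

set_option autoImplicit false

open Polynomial

namespace Pool.Agent.TH182.J333

open TH160 WeierstrassCurve.Affine

variable {L : Type} [Field L]

lemma nonsing [CharZero L] (x y : L) :
    (EW L).Nonsingular x y ↔ y ^ 2 = x ^ 3 + 1 := by
  rw [WeierstrassCurve.Affine.nonsingular_iff', WeierstrassCurve.Affine.equation_iff]
  simp only [zero_mul, add_zero, mul_zero, zero_sub]
  constructor
  · rintro ⟨h, -⟩; exact h
  · intro h
    refine ⟨h, ?_⟩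
    by_contra hcon
    push Not at hcon
    obtain ⟨h1, h2⟩ := hcon
    have hx : x = 0 := by
      have : x ^ 2 = 0 := by
        have h3 : (3 : L) ≠ 0 := three_ne_zero
        have h4 : 3 * x ^ 2 = 0 := by linear_combination -h1
        exact (mul_eq_zero.mp h4).resolve_left h3
      exact pow_eq_zero_iff (by norm_num) |>.mp this
    have hy : y = 0 := (mul_eq_zero.mp h2).resolve_left two_ne_zero
    rw [hx, hy] at h
    norm_num at h

/-- the slope condition -/
def Slope (x1 y1 x2 y2 l : L) : Prop :=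
  (x1 ≠ x2 ∧ l * (x1 - x2) = y1 - y2) ∨ (x1 = x2 ∧ y1 = y2 ∧ y1 ≠ 0 ∧ l * (2 * y1) = 3 * x1 ^ 2)

lemma negY_eq (x y : L) : (EW L).negY x y = -y := by
  simp [WeierstrassCurve.Affine.negY]

lemma add_eq [CharZero L] [DecidableEq L] {x1 y1 x2 y2 l : L} (h1 : (EW L).Nonsingular x1 y1)
    (h2 : (EW L).Nonsingular x2 y2) (hl : Slope x1 y1 x2 y2 l) :
    ∃ h3 : (EW L).Nonsingular (l ^ 2 - x1 - x2) (-(l * (l ^ 2 - x1 - x2 - x1) + y1)),
      Point.some x1 y1 h1 + Point.some x2 y2 h2 = Point.some _ _ h3 := by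
  have hxy : ¬(x1 = x2 ∧ y1 = (EW L).negY x2 y2) := by
    rw [negY_eq]
    rintro ⟨ha, hb⟩
    rcases hl with ⟨hl, -⟩ | ⟨-, hc, hd, -⟩
    · exact hl ha
    · apply hd
      have : 2 * y1 = 0 := by linear_combination hb + hc
      exact (mul_eq_zero.mp this).resolve_left two_ne_zero
  have hs : (EW L).slope x1 x2 y1 y2 = l := by
    rcases hl with ⟨hx, hl⟩ | ⟨hx, hy, hy0, hl⟩
    · rw [slope_of_X_ne hx, div_eq_iff (sub_ne_zero.mpr hx)]
      exact hl.symm
    · rw [slope_of_Y_ne hx (by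
        intro hh
        exact hxy ⟨hx, hh⟩), negY_eq]
      have h2y : y1 - -y1 ≠ 0 := by
        rw [sub_neg_eq_add, ← two_mul]
        exact mul_ne_zero two_ne_zero hy0
      rw [div_eq_iff h2y]
      simp only
      linear_combination -hl
  have hX : (EW L).addX x1 x2 l = l ^ 2 - x1 - x2 := by
    simp [WeierstrassCurve.Affine.addX]
  have hY : (EW L).addY x1 x2 y1 l = -(l * (l ^ 2 - x1 - x2 - x1) + y1) := by
    simp [WeierstrassCurve.Affine.addY, WeierstrassCurve.Affine.negY,
      WeierstrassCurve.Affine.negAddY, WeierstrassCurve.Affine.addX]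
  have h3 := nonsingular_add h1 h2 hxy
  have h4 := Point.add_some hxy (h₁ := h1) (h₂ := h2)
  simp only [hs, hX, hY] at h3 h4
  exact ⟨h3, h4⟩

lemma exists_slope [CharZero L] (x1 y1 x2 y2 : L) (h1 : (EW L).Nonsingular x1 y1)
    (h2 : (EW L).Nonsingular x2 y2) :
    (x1 = x2 ∧ y1 = -y2) ∨ ∃ l, Slope x1 y1 x2 y2 l := by
  by_cases hx : x1 = x2
  · by_cases hy : y1 = -y2
    · exact Or.inl ⟨hx, hy⟩
    · right
      have e1 := (nonsing _ _).mp h1
      have e2 := (nonsing _ _).mp h2
      have e3 : (y1 - y2) * (y1 + y2) = 0 := by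
        rw [hx] at e1
        linear_combination e1 - e2
      have e4 : y1 + y2 ≠ 0 := fun h0 => hy (by linear_combination h0)
      have e5 : y1 = y2 := sub_eq_zero.mp ((mul_eq_zero.mp e3).resolve_right e4)
      have e6 : y1 ≠ 0 := by
        intro h0
        apply hy
        rw [← e5, h0, neg_zero]
      refine ⟨3 * x1 ^ 2 / (2 * y1), Or.inr ⟨hx, e5, e6, ?_⟩⟩
      rw [div_mul_cancel₀]
      exact mul_ne_zero two_ne_zero e6
  · right
    refine ⟨(y1 - y2) / (x1 - x2), Or.inl ⟨hx, ?_⟩⟩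
    rw [div_mul_cancel₀]
    exact sub_ne_zero.mpr hx

theorem stmPhi : StmPhi := by
  intro L _ _ _ σ c hc
  have hc0 : c ≠ 0 := by rintro rfl; norm_num at hc
  have hN : ∀ {x y : L}, (EW L).Nonsingular x y → (EW L).Nonsingular (c * σ x) (σ y) := by
    intro x y h
    rw [nonsing] at *
    rw [← map_pow, h, map_add, map_pow, map_one]
    linear_combination -(σ x) ^ 3 * hc
  have hσ := σ.injective
  refine ⟨⟨⟨fun P => match P with
    | .zero => .zero
    | .some x y h => .some (c * σ x) (σ y) (hN h), rfl⟩, ?_⟩, ?_⟩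
  · rintro (_ | ⟨x1, y1, h1⟩) (_ | ⟨x2, y2, h2⟩)
    any_goals rfl
    rcases exists_slope _ _ _ _ h1 h2 with ⟨hx, hy⟩ | ⟨l, hl⟩
    · rw [Point.add_of_Y_eq hx (by rw [negY_eq]; exact hy)]
      change 0 = Point.some _ _ (hN h1) + Point.some _ _ (hN h2)
      rw [Point.add_of_Y_eq]
      · rw [hx]
      · rw [negY_eq, hy, map_neg]
    · obtain ⟨h3, h4⟩ := add_eq h1 h2 hl
      rw [h4]
      change Point.some _ _ (hN h3) = Point.some _ _ (hN h1) + Point.some _ _ (hN h2)
      have hl' : Slope (c * σ x1) (σ y1) (c * σ x2) (σ y2) (c ^ 2 * σ l) := by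
        rcases hl with ⟨hx, hl⟩ | ⟨hx, hy, hy0, hl⟩
        · left
          refine ⟨fun h0 => hx (hσ (mul_left_cancel₀ hc0 h0)), ?_⟩
          have := congrArg σ hl
          rw [map_mul, map_sub, map_sub] at this
          linear_combination this + σ l * (σ x1 - σ x2) * hc
        · right
          refine ⟨by rw [hx], by rw [hy], (map_ne_zero_iff _ hσ).mpr hy0, ?_⟩
          have := congrArg σ hl
          rw [map_mul, map_mul, map_mul, map_pow, map_ofNat, map_ofNat] at this
          linear_combination c ^ 2 * this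
      obtain ⟨h5, h6⟩ := add_eq (hN h1) (hN h2) hl'
      rw [h6]
      simp only [Point.some.injEq]
      constructor
      · simp only [map_sub, map_pow]
        linear_combination -c * (σ l) ^ 2 * hc
      · simp only [map_neg, map_add, map_mul, map_sub, map_pow]
        linear_combination ((c ^ 3 + 1) * (σ l) ^ 3 - σ l * (2 * σ x1 + σ x2)) * hc
  · intro x y h
    exact ⟨hN h, rfl⟩

theorem stmOmega : StmOmega := by
  intro L _ _ _ w hw φ hφ P
  rcases P with _ | ⟨x, y, h⟩
  · change (0 : (EW L).Point) + φ 0 + φ (φ 0) = 0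
    simp
  · obtain ⟨h1, e1⟩ := hφ x y h
    obtain ⟨h2, e2⟩ := hφ _ _ h1
    rw [e1, e2]
    have hw1 : w ≠ 1 := by rintro rfl; norm_num at hw
    have hs : Slope x y (w * x) y 0 := by
      by_cases hx : x = 0
      · right
        refine ⟨by rw [hx, mul_zero], rfl, ?_, by rw [hx]; simp⟩
        rintro rfl
        have := (nonsing _ _).mp h
        rw [hx] at this
        norm_num at this
      · left
        refine ⟨?_, by simp⟩
        intro h0
        have : (w - 1) * x = 0 := by linear_combination -h0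
        rcases mul_eq_zero.mp this with h3 | h3
        · exact hw1 (sub_eq_zero.mp h3)
        · exact hx h3
    obtain ⟨h3, h4⟩ := add_eq h h1 hs
    rw [h4, Point.add_of_Y_eq]
    · linear_combination -x * hw
    · rw [negY_eq]; ring

/-- nonzero cubes -/
def Cub (z : L) : Prop := ∃ c : L, c ≠ 0 ∧ z = c ^ 3

lemma Cub.mul {a b : L} (ha : Cub a) (hb : Cub b) : Cub (a * b) := by
  obtain ⟨c, hc, rfl⟩ := ha; obtain ⟨d, hd, rfl⟩ := hb
  exact ⟨c * d, mul_ne_zero hc hd, by ring⟩
lemma Cub.div {a b : L} (ha : Cub a) (hb : Cub b) : Cub (a / b) := by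
  obtain ⟨c, hc, rfl⟩ := ha; obtain ⟨d, hd, rfl⟩ := hb
  exact ⟨c / d, div_ne_zero hc hd, by rw [div_pow]⟩
lemma Cub.neg {a : L} (ha : Cub a) : Cub (-a) := by
  obtain ⟨c, hc, rfl⟩ := ha
  exact ⟨-c, neg_ne_zero.mpr hc, by ring⟩

lemma KR_some_iff {x y d : L} {h : (EW L).Nonsingular x y} (hd : d ≠ 0) :
    KR (Point.some x y h) d ↔ (Cub ((y - 1) / d) ∨ Cub (d * (y + 1))) := by
  unfold KR Cub
  constructor
  · rintro ⟨c, hc, h | h⟩
    · exact Or.inl ⟨c, hc, by rw [h]; field_simp⟩
    · exact Or.inr ⟨c, hc, h⟩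
  · rintro (⟨c, hc, h⟩ | ⟨c, hc, h⟩)
    · exact ⟨c, hc, Or.inl (by rw [div_eq_iff hd] at h; rw [h]; ring)⟩
    · exact ⟨c, hc, Or.inr h⟩

lemma Cub.ne_zero {z : L} (h : Cub z) : z ≠ 0 := by
  obtain ⟨c, hc, rfl⟩ := h
  exact pow_ne_zero 3 hc

lemma KR_u [CharZero L] {x y d : L} {h : (EW L).Nonsingular x y} (hd : d ≠ 0)
    (hk : KR (Point.some x y h) d) (hu : y - 1 ≠ 0) : Cub ((y - 1) / d) := by
  rcases (KR_some_iff hd).mp hk with h1 | h1
  · exact h1
  · have hv : y + 1 ≠ 0 := right_ne_zero_of_mul h1.ne_zero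
    have e := (nonsing _ _).mp h
    have hx : x ≠ 0 := by
      rintro rfl
      apply mul_ne_zero hu hv
      linear_combination e
    have e2 : (y - 1) / d = x ^ 3 / (d * (y + 1)) := by
      rw [div_eq_div_iff hd (mul_ne_zero hd hv)]
      linear_combination d * e
    rw [e2]
    exact Cub.div ⟨x, hx, rfl⟩ h1

lemma KR_v [CharZero L] {x y d : L} {h : (EW L).Nonsingular x y} (hd : d ≠ 0)
    (hk : KR (Point.some x y h) d) (hv : y + 1 ≠ 0) : Cub (d * (y + 1)) := by
  rcases (KR_some_iff hd).mp hk with h1 | h1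
  · have hu : y - 1 ≠ 0 := by
      intro h0
      apply h1.ne_zero
      rw [h0, zero_div]
    have e := (nonsing _ _).mp h
    have hx : x ≠ 0 := by
      rintro rfl
      apply mul_ne_zero hu hv
      linear_combination e
    have e2 : d * (y + 1) = x ^ 3 / ((y - 1) / d) := by
      rw [eq_div_iff (div_ne_zero hu hd)]
      field_simp
      linear_combination e
    rw [e2]
    exact Cub.div ⟨x, hx, rfl⟩ h1
  · exact h1

theorem stmKum : StmKum := by
  intro L _ _ _ hr P Q d e hd he hP hQ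
  have h2 : Cub (2 : L) := by
    obtain ⟨r, hr⟩ := hr
    refine ⟨r, ?_, hr.symm⟩
    rintro rfl
    norm_num at hr
  rcases P with _ | ⟨x1, y1, h1⟩
  · obtain ⟨c, hc, hdc⟩ := hP
    change KR (0 + Q) (d * e)
    rw [zero_add]
    rcases Q with _ | ⟨x2, y2, h2'⟩
    · obtain ⟨c', hc', hec⟩ := hQ
      exact ⟨c * c', mul_ne_zero hc hc', by rw [hdc, hec]; ring⟩
    · rw [KR_some_iff (mul_ne_zero hd he)]
      rcases (KR_some_iff he).mp hQ with h | h
      · left
        have := h.div ⟨c, hc, hdc⟩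
        rwa [div_div, mul_comm e d] at this
      · right
        have := Cub.mul ⟨c, hc, hdc⟩ h
        rwa [← mul_assoc] at this
  rcases Q with _ | ⟨x2, y2, h2'⟩
  · obtain ⟨c, hc, hdc⟩ := hQ
    change KR (Point.some x1 y1 h1 + 0) (d * e)
    rw [add_zero, KR_some_iff (mul_ne_zero hd he)]
    rcases (KR_some_iff hd).mp hP with h | h
    · left
      have := h.div ⟨c, hc, hdc⟩
      rwa [div_div] at this
    · right
      have := Cub.mul ⟨c, hc, hdc⟩ h
      rwa [← mul_assoc, mul_comm e d] at this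
  have two0 : (2 : L) ≠ 0 := two_ne_zero
  rcases exists_slope _ _ _ _ h1 h2' with ⟨hx, hy⟩ | ⟨l, hl⟩
  · rw [Point.add_of_Y_eq hx (by rw [negY_eq]; exact hy)]
    suffices h : Cub (d * e) from h
    by_cases hu : y1 - 1 = 0
    · have hv1 : y1 + 1 ≠ 0 := by
        intro h0; apply two0; linear_combination h0 - hu
      have hu2 : y2 - 1 ≠ 0 := by
        intro h0; apply hv1; rw [hy]; linear_combination -h0
      have := ((KR_v hd hP hv1).div (KR_u he hQ hu2)).neg
      have e1 : -(d * (y1 + 1) / ((y2 - 1) / e)) = d * e := by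
        rw [hy]
        field_simp
        ring
      rwa [e1] at this
    · have hv2 : y2 + 1 ≠ 0 := by
        intro h0; apply hu; rw [hy]; linear_combination -h0
      have := ((KR_v he hQ hv2).div (KR_u hd hP hu)).neg
      have e1 : -(e * (y2 + 1) / ((y1 - 1) / d)) = d * e := by
        rw [hy] at hu ⊢
        field_simp
        ring
      rwa [e1] at this
  · obtain ⟨h3, h4⟩ := add_eq h1 h2' hl
    rw [h4, KR_some_iff (mul_ne_zero hd he)]
    set x3 := l ^ 2 - x1 - x2 with hx3
    set y3 := -(l * (x3 - x1) + y1) with hy3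
    set n := y1 - l * x1 with hn
    have c1 := (nonsing _ _).mp h1
    have c2 := (nonsing _ _).mp h2'
    have f1 : y1 = l * x1 + n := by rw [hn]; ring
    have f2 : y2 = l * x2 + n := by
      rcases hl with ⟨hx, hl⟩ | ⟨hx, hy, hy0, hl⟩
      · rw [hn]; linear_combination hl
      · rw [hn, ← hx, hy]; ring
    have f3 : -y3 = l * x3 + n := by rw [hy3, hn]; ring
    have e2 : x1 * x2 + x1 * x3 + x2 * x3 = -2 * l * n := by
      rcases hl with ⟨hx, hl⟩ | ⟨hx, hy, hy0, hl⟩
      · have hx' := sub_ne_zero.mpr hx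
        apply mul_left_cancel₀ hx'
        rw [f1] at c1
        rw [f2] at c2
        rw [hx3]
        linear_combination c1 - c2
      · rw [hx3, ← hx]
        rw [f1] at hl
        linear_combination hl
    have e3 : x1 * x2 * x3 = n ^ 2 - 1 := by
      rw [f1] at c1
      have : x1 ^ 3 - l ^ 2 * x1 ^ 2 + (x1 * x2 + x1 * x3 + x2 * x3) * x1 - x1 * x2 * x3 = 0 := by
        rw [hx3]; ring
      rw [e2] at this
      linear_combination -this - c1
    have e1 : x1 + x2 + x3 = l ^ 2 := by rw [hx3]; ring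
    have I1 : (y1 - 1) * (y2 - 1) * (y3 + 1) = (1 - n) ^ 3 := by
      have : (y1 - 1) * (y2 - 1) * (y3 + 1) =
        -((l * x1 + n - 1) * (l * x2 + n - 1) * (l * x3 + n - 1)) := by
        rw [← f3, ← f1, ← f2]; ring
      rw [this]
      linear_combination -l ^ 3 * e3 - l ^ 2 * (n - 1) * e2 - l * (n - 1) ^ 2 * e1
    have I2 : (y1 + 1) * (y2 + 1) * (y3 - 1) = (-(n + 1)) ^ 3 := by
      have : (y1 + 1) * (y2 + 1) * (y3 - 1) =
        -((l * x1 + n + 1) * (l * x2 + n + 1) * (l * x3 + n + 1)) := by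
        rw [← f3, ← f1, ← f2]; ring
      rw [this]
      linear_combination -l ^ 3 * e3 - l ^ 2 * (n + 1) * e2 - l * (n + 1) ^ 2 * e1
    have c3 := (nonsing _ _).mp h3
    have x0 : ∀ {x y : L}, y ^ 2 = x ^ 3 + 1 → (y - 1 = 0 ∨ y + 1 = 0) → x = 0 := by
      intro x y hxy h
      have : x ^ 3 = 0 := by
        rw [show x ^ 3 = (y - 1) * (y + 1) by linear_combination -hxy]
        exact mul_eq_zero.mpr h
      exact pow_eq_zero_iff (by norm_num) |>.mp this
    by_cases hA : (y1 - 1) * (y2 - 1) * (y3 + 1) = 0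
    · by_cases hB : (y1 + 1) * (y2 + 1) * (y3 - 1) = 0
      · exfalso
        rw [I1] at hA
        rw [I2] at hB
        have n1 := pow_eq_zero_iff (by norm_num) |>.mp hA
        have n2 := pow_eq_zero_iff (by norm_num) |>.mp hB
        apply two0
        linear_combination n1 - n2
      · left
        have hv12 := left_ne_zero_of_mul hB
        have hv1 := left_ne_zero_of_mul hv12
        have hv2 := right_ne_zero_of_mul hv12
        have hu3 := right_ne_zero_of_mul hB
        have hc : Cub ((-(n + 1)) ^ 3) := ⟨-(n + 1), fun h0 => hB (by rw [I2, h0]; ring), rfl⟩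
        have := (hc.div (KR_v hd hP hv1)).div (KR_v he hQ hv2)
        have e1 : (-(n + 1)) ^ 3 / (d * (y1 + 1)) / (e * (y2 + 1)) = (y3 - 1) / (d * e) := by
          rw [← I2]
          field_simp
        rwa [e1] at this
    · right
      have hu12 := left_ne_zero_of_mul hA
      have hu1 := left_ne_zero_of_mul hu12
      have hu2 := right_ne_zero_of_mul hu12
      have hv3 := right_ne_zero_of_mul hA
      have hc : Cub ((1 - n) ^ 3) := ⟨1 - n, fun h0 => hA (by rw [I1, h0]; ring), rfl⟩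
      have := (hc.div (KR_u hd hP hu1)).div (KR_u he hQ hu2)
      have e1 : (1 - n) ^ 3 / ((y1 - 1) / d) / ((y2 - 1) / e) = d * e * (y3 + 1) := by
        rw [← I1]
        field_simp
      rwa [e1] at this

end Pool.Agent.TH182.J333
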