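import Mathlib
import Pool.Agent.TH160.Stm

set_option autoImplicit false

open Polynomial

namespace Pool.Agent.TH182.J334

open TH160

/-! ### Elements of a field over `ℂ` which are constant -/

section
variable {K : Type} [Field K] [Algebra ℂ K]

/-- constant elements -/
def IsC (z : K) : Prop := ∃ c : ℂ, z = algebraMap ℂ K c

lemma isC_of_integral {z : K} (h : IsIntegral ℂ z) : IsC z := by
  obtain ⟨c, hc⟩ := minpoly.mem_range_of_degree_eq_one ℂ z
    (IsAlgClosed.degree_eq_one_of_irreducible ℂ (minpoly.irreducible h))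
  exact ⟨c, hc.symm⟩

lemma isC_of_pow {z : K} {n : ℕ} (hn : n ≠ 0) (h : IsC (z ^ n)) : IsC z := by
  obtain ⟨c, hc⟩ := h
  apply isC_of_integral
  refine ⟨X ^ n - C c, monic_X_pow_sub_C c hn, ?_⟩
  simp [hc]

lemma IsC.add {x y : K} (hx : IsC x) (hy : IsC y) : IsC (x + y) := by
  obtain ⟨a, rfl⟩ := hx; obtain ⟨b, rfl⟩ := hy; exact ⟨a + b, by simp⟩
lemma IsC.mul {x y : K} (hx : IsC x) (hy : IsC y) : IsC (x * y) := by
  obtain ⟨a, rfl⟩ := hx; obtain ⟨b, rfl⟩ := hy; exact ⟨a * b, by simp⟩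
lemma IsC.sub {x y : K} (hx : IsC x) (hy : IsC y) : IsC (x - y) := by
  obtain ⟨a, rfl⟩ := hx; obtain ⟨b, rfl⟩ := hy; exact ⟨a - b, by simp⟩
lemma IsC.div {x y : K} (hx : IsC x) (hy : IsC y) : IsC (x / y) := by
  obtain ⟨a, rfl⟩ := hx; obtain ⟨b, rfl⟩ := hy; exact ⟨a / b, by simp⟩
lemma IsC.neg {x : K} (hx : IsC x) : IsC (-x) := by
  obtain ⟨a, rfl⟩ := hx; exact ⟨-a, by simp⟩
lemma IsC.pow {x : K} (hx : IsC x) (n : ℕ) : IsC (x ^ n) := by
  obtain ⟨a, rfl⟩ := hx; exact ⟨a ^ n, by simp⟩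
lemma isC_natCast (n : ℕ) : IsC (n : K) := ⟨n, by simp⟩
lemma isC_const (c : ℂ) : IsC (algebraMap ℂ K c) := ⟨c, rfl⟩
lemma isC_one : IsC (1 : K) := ⟨1, by simp⟩
lemma isC_zero : IsC (0 : K) := ⟨0, by simp⟩
end

/-- Fermat for exponent three over `ℂ(t)` -/
lemma fermat {a b c : RatFunc ℂ} (ha : a ≠ 0) (hb : b ≠ 0) (hc : c ≠ 0)
    (h : a ^ 3 + b ^ 3 = c ^ 3) : IsC (a / c) ∧ IsC (b / c) := by
  obtain ⟨a1, a2, ha2, rfl⟩ := IsFractionRing.div_surjective (A := ℂ[X]) a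
  obtain ⟨b1, b2, hb2, rfl⟩ := IsFractionRing.div_surjective (A := ℂ[X]) b
  obtain ⟨c1, c2, hc2, rfl⟩ := IsFractionRing.div_surjective (A := ℂ[X]) c
  have hinj : Function.Injective (algebraMap ℂ[X] (RatFunc ℂ)) :=
    IsFractionRing.injective ℂ[X] (RatFunc ℂ)
  have ne : ∀ p : ℂ[X], algebraMap ℂ[X] (RatFunc ℂ) p ≠ 0 ↔ p ≠ 0 := fun p =>
    (map_ne_zero_iff _ hinj)
  have ha2' := nonZeroDivisors.ne_zero ha2
  have hb2' := nonZeroDivisors.ne_zero hb2
  have hc2' := nonZeroDivisors.ne_zero hc2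
  have ha2'' := (ne a2).mpr ha2'
  have hb2'' := (ne b2).mpr hb2'
  have hc2'' := (ne c2).mpr hc2'
  have ha1'' : algebraMap ℂ[X] (RatFunc ℂ) a1 ≠ 0 := fun h0 => ha (by rw [h0, zero_div])
  have hb1'' : algebraMap ℂ[X] (RatFunc ℂ) b1 ≠ 0 := fun h0 => hb (by rw [h0, zero_div])
  have hc1'' : algebraMap ℂ[X] (RatFunc ℂ) c1 ≠ 0 := fun h0 => hc (by rw [h0, zero_div])
  have ha1' := (ne a1).mp ha1''
  have hb1' := (ne b1).mp hb1''
  have hc1' := (ne c1).mp hc1''
  have key : (a1 * b2 * c2) ^ 3 + (b1 * a2 * c2) ^ 3 = (c1 * a2 * b2) ^ 3 := by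
    apply hinj
    simp only [map_add, map_mul, map_pow]
    field_simp at h
    linear_combination h
  obtain ⟨d, u, v, w, ⟨h1, h2, h3⟩, hu, hv, hw⟩ := fermatLastTheoremWith'_polynomial (k := ℂ)
    (n := 3) le_rfl (by norm_num) (a1 * b2 * c2) (b1 * a2 * c2) (c1 * a2 * b2)
    (mul_ne_zero (mul_ne_zero ha1' hb2') hc2') (mul_ne_zero (mul_ne_zero hb1' ha2') hc2') (mul_ne_zero (mul_ne_zero hc1' ha2') hb2') key
  obtain ⟨cu, hcu, rfl⟩ := Polynomial.isUnit_iff.mp hu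
  obtain ⟨cv, hcv, rfl⟩ := Polynomial.isUnit_iff.mp hv
  obtain ⟨cw, hcw, rfl⟩ := Polynomial.isUnit_iff.mp hw
  have hd : d ≠ 0 := by
    rintro rfl
    rw [mul_zero] at h1
    exact mul_ne_zero (mul_ne_zero ha1' hb2') hc2' h1
  have hd' := (ne d).mpr hd
  have hw0 : algebraMap ℂ[X] (RatFunc ℂ) (C cw) ≠ 0 := (ne _).mpr (C_ne_zero.mpr hcw.ne_zero)
  have h1' := congrArg (algebraMap ℂ[X] (RatFunc ℂ)) h1
  have h2' := congrArg (algebraMap ℂ[X] (RatFunc ℂ)) h2
  have h3' := congrArg (algebraMap ℂ[X] (RatFunc ℂ)) h3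
  simp only [map_mul] at h1' h2' h3'
  have hC : ∀ c : ℂ, IsC (algebraMap ℂ[X] (RatFunc ℂ) (C c)) := fun c =>
    ⟨c, by rw [IsScalarTower.algebraMap_apply ℂ ℂ[X] (RatFunc ℂ)]; rfl⟩
  constructor
  · have : algebraMap ℂ[X] (RatFunc ℂ) a1 / algebraMap ℂ[X] (RatFunc ℂ) a2 /
        (algebraMap ℂ[X] (RatFunc ℂ) c1 / algebraMap ℂ[X] (RatFunc ℂ) c2) =
        algebraMap ℂ[X] (RatFunc ℂ) (C cu) / algebraMap ℂ[X] (RatFunc ℂ) (C cw) := by
      rw [div_div_div_eq, div_eq_div_iff (mul_ne_zero ha2'' hc1'') hw0]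
      have e : algebraMap ℂ[X] (RatFunc ℂ) d * algebraMap ℂ[X] (RatFunc ℂ) b2 *
        (algebraMap ℂ[X] (RatFunc ℂ) a1 * algebraMap ℂ[X] (RatFunc ℂ) c2 *
          algebraMap ℂ[X] (RatFunc ℂ) (C cw) - algebraMap ℂ[X] (RatFunc ℂ) (C cu) *
          (algebraMap ℂ[X] (RatFunc ℂ) a2 * algebraMap ℂ[X] (RatFunc ℂ) c1)) = 0 := by
        linear_combination (algebraMap ℂ[X] (RatFunc ℂ) d * algebraMap ℂ[X] (RatFunc ℂ) (C cw))
          * h1' - (algebraMap ℂ[X] (RatFunc ℂ) d * algebraMap ℂ[X] (RatFunc ℂ) (C cu)) * h3'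
      exact sub_eq_zero.mp ((mul_eq_zero.mp e).resolve_left (mul_ne_zero hd' hb2''))
    rw [this]
    exact (hC cu).div (hC cw)
  · have : algebraMap ℂ[X] (RatFunc ℂ) b1 / algebraMap ℂ[X] (RatFunc ℂ) b2 /
        (algebraMap ℂ[X] (RatFunc ℂ) c1 / algebraMap ℂ[X] (RatFunc ℂ) c2) =
        algebraMap ℂ[X] (RatFunc ℂ) (C cv) / algebraMap ℂ[X] (RatFunc ℂ) (C cw) := by
      rw [div_div_div_eq, div_eq_div_iff (mul_ne_zero hb2'' hc1'') hw0]
      have e : algebraMap ℂ[X] (RatFunc ℂ) d * algebraMap ℂ[X] (RatFunc ℂ) a2 *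
        (algebraMap ℂ[X] (RatFunc ℂ) b1 * algebraMap ℂ[X] (RatFunc ℂ) c2 *
          algebraMap ℂ[X] (RatFunc ℂ) (C cw) - algebraMap ℂ[X] (RatFunc ℂ) (C cv) *
          (algebraMap ℂ[X] (RatFunc ℂ) b2 * algebraMap ℂ[X] (RatFunc ℂ) c1)) = 0 := by
        linear_combination (algebraMap ℂ[X] (RatFunc ℂ) d * algebraMap ℂ[X] (RatFunc ℂ) (C cw))
          * h2' - (algebraMap ℂ[X] (RatFunc ℂ) d * algebraMap ℂ[X] (RatFunc ℂ) (C cv)) * h3'
      exact sub_eq_zero.mp ((mul_eq_zero.mp e).resolve_left (mul_ne_zero hd' ha2''))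
    rw [this]
    exact (hC cv).div (hC cw)

lemma exists_omega : ∃ w : ℂ, w ^ 2 + w + 1 = 0 := by
  have hdeg : (C 1 * X ^ 2 + C 1 * X + C 1 : ℂ[X]).degree = 2 := degree_quadratic one_ne_zero
  obtain ⟨w, hw⟩ := IsAlgClosed.exists_root (C 1 * X ^ 2 + C 1 * X + C 1 : ℂ[X])
    (by rw [hdeg]; norm_num)
  exact ⟨w, by simpa [IsRoot] using hw⟩

theorem stmFLT : StmFLT := by
  intro x y hxy
  suffices h : IsC x ∧ IsC y by
    obtain ⟨⟨a, ha⟩, ⟨b, hb⟩⟩ := h
    exact ⟨a, b, by rw [ha]; rfl, by rw [hb]; rfl⟩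
  have h2 : IsC (2 : RatFunc ℂ) := by simpa using isC_natCast (K := RatFunc ℂ) 2
  have h3 : IsC (3 : RatFunc ℂ) := by simpa using isC_natCast (K := RatFunc ℂ) 3
  have h20 : (2 : RatFunc ℂ) ≠ 0 := two_ne_zero
  have h30 : (3 : RatFunc ℂ) ≠ 0 := three_ne_zero
  -- it suffices to show that `y` is constant
  have hxc : IsC y → IsC x := fun hy =>
    isC_of_pow (n := 3) (by norm_num) (by
      rw [show x ^ 3 = y ^ 2 - 1 by linear_combination -hxy]
      exact (hy.pow 2).sub isC_one)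
  suffices hy : IsC y from ⟨hxc hy, hy⟩
  by_cases hx : x = 0
  · refine isC_of_pow (n := 2) (by norm_num) ?_
    rw [hxy, hx]
    simpa using isC_one
  obtain ⟨w0, hw0⟩ := exists_omega
  set w : RatFunc ℂ := algebraMap ℂ (RatFunc ℂ) w0 with hw
  have hwc : IsC w := ⟨w0, rfl⟩
  have hwe : w ^ 2 + w + 1 = 0 := by
    have : algebraMap ℂ (RatFunc ℂ) (w0 ^ 2 + w0 + 1) = 0 := by rw [hw0, map_zero]
    rw [map_add, map_add, map_pow, map_one] at this
    exact this
  obtain ⟨k0, hk0⟩ := IsAlgClosed.exists_pow_nat_eq (2 : ℂ) (n := 3) (by norm_num)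
  set k : RatFunc ℂ := algebraMap ℂ (RatFunc ℂ) k0 with hk
  have hkc : IsC k := ⟨k0, rfl⟩
  have hke : k ^ 3 = 2 := by
    have : algebraMap ℂ (RatFunc ℂ) (k0 ^ 3) = algebraMap ℂ (RatFunc ℂ) 2 := by rw [hk0]
    rw [map_pow, map_ofNat] at this
    exact this
  have hk00 : k ≠ 0 := by
    intro h
    rw [h] at hke
    norm_num at hke
  -- the two cubes
  set a : RatFunc ℂ := y - 1 with ha
  set b : RatFunc ℂ := -(y + 1) with hb
  set u : RatFunc ℂ := (a + w ^ 2 * b + w * 2) / 3 with hu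
  set v : RatFunc ℂ := (a + w * b + w ^ 2 * 2) / 3 with hv
  have e1 : u + v = a := by
    rw [hu, hv, ← add_div, div_eq_iff h30]
    rw [ha, hb]
    linear_combination (-(y + 1) + 2) * hwe
  have e2 : w * u + w ^ 2 * v = b := by
    have : w * u + w ^ 2 * v =
        (w * (a + w ^ 2 * b + w * 2) + w ^ 2 * (a + w * b + w ^ 2 * 2)) / 3 := by
      rw [hu, hv]; ring
    rw [this, div_eq_iff h30, ha, hb]
    linear_combination ((y - 1) + 2 * (w - 1) * (-(y + 1)) + 2 + w * (w - 1) * 2) * hwe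
  have e3 : w ^ 2 * u + w * v = 2 := by
    have : w ^ 2 * u + w * v =
        (w ^ 2 * (a + w ^ 2 * b + w * 2) + w * (a + w * b + w ^ 2 * 2)) / 3 := by
      rw [hu, hv]; ring
    rw [this, div_eq_iff h30, ha, hb]
    linear_combination ((y - 1) + (-(y + 1)) + w * (w - 1) * (-(y + 1)) + 2 * (w - 1) * 2) * hwe
  have e5 : u ^ 3 + v ^ 3 = (u + v) * (w * u + w ^ 2 * v) * (w ^ 2 * u + w * v) := by
    linear_combination (-(u + v) * ((w - 1) * (u ^ 2 + v ^ 2) + (w ^ 2 - w + 1) * u * v)) * hwe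
  have e4 : u ^ 3 + v ^ 3 = (-(k * x)) ^ 3 := by
    rw [e5, e1, e2, e3, ha, hb]
    linear_combination (-2 : RatFunc ℂ) * hxy + x ^ 3 * hke
  have hcase : (y - 1) ^ 3 = -2 * x ^ 3 → IsC y := by
    intro h
    have h1 : (y - 1) * (y ^ 2 + 3) = 0 := by linear_combination h + 2 * hxy
    rcases mul_eq_zero.mp h1 with h | h
    · rw [show y = 1 by linear_combination h]; exact isC_one
    · refine isC_of_pow (n := 2) (by norm_num) ?_
      rw [show y ^ 2 = -3 by linear_combination h]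
      exact h3.neg
  by_cases hu0 : u = 0
  · apply hcase
    rw [hu0, zero_add] at e1
    rw [hu0, e1, ha] at e4
    linear_combination e4 - x ^ 3 * hke
  by_cases hv0 : v = 0
  · apply hcase
    rw [hv0, add_zero] at e1
    rw [hv0, e1, ha] at e4
    linear_combination e4 - x ^ 3 * hke
  set c : RatFunc ℂ := -(k * x) with hc
  have hc0 : c ≠ 0 := neg_ne_zero.mpr (mul_ne_zero hk00 hx)
  obtain ⟨f1, f2⟩ := fermat hu0 hv0 hc0 e4
  have g1 : IsC (a / c) := by
    rw [← e1, add_div]; exact f1.add f2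
  have g2 : IsC (b / c) := by
    rw [← e2, show (w * u + w ^ 2 * v) / c = w * (u / c) + w ^ 2 * (v / c) by ring]
    exact (hwc.mul f1).add ((hwc.pow 2).mul f2)
  have g3 : IsC c := by
    have h1 : a / c + b / c = -2 / c := by rw [ha, hb]; ring
    have h2' : c = -2 / (a / c + b / c) := by
      rw [h1]
      field_simp
    rw [h2']
    exact h2.neg.div (g1.add g2)
  have : y = 1 + a / c * c := by
    rw [div_mul_cancel₀ _ hc0, ha]; ring
  rw [this]
  exact isC_one.add (g1.mul g3)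

/-! ### Division by `1 - w` -/

lemma nonsing {L : Type} [Field L] [CharZero L] (x y : L) :
    (EW L).Nonsingular x y ↔ y ^ 2 = x ^ 3 + 1 := by
  rw [WeierstrassCurve.Affine.nonsingular_iff', WeierstrassCurve.Affine.equation_iff]
  simp only [zero_mul, add_zero, mul_zero, zero_sub]
  constructor
  · rintro ⟨h, -⟩; exact h
  · intro h
    refine ⟨h, ?_⟩
    by_contra hcon
    push Not at hcon
    obtain ⟨h1, h2⟩ := hcon
    have hx : x = 0 := by
      have : x ^ 2 = 0 := by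
        have h3 : (3 : L) ≠ 0 := three_ne_zero
        have h4 : 3 * x ^ 2 = 0 := by linear_combination -h1
        exact (mul_eq_zero.mp h4).resolve_left h3
      exact pow_eq_zero_iff (by norm_num) |>.mp this
    have hy : y = 0 := (mul_eq_zero.mp h2).resolve_left two_ne_zero
    rw [hx, hy] at h
    norm_num at h

theorem stmDiv : StmDiv := by
  intro L _ _ _ w hw φ hφ a b h
  have hinj : Function.Injective (algebraMap ℂ L) := (algebraMap ℂ L).injective
  have : CharZero L := charZero_of_injective_algebraMap hinj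
  have hw0 : w ≠ 0 := by
    rintro rfl; norm_num at hw
  have hw1 : w ≠ 1 := by
    rintro rfl; norm_num at hw
  have hab : b ^ 2 = a ^ 3 + 1 := by
    have := (nonsing _ _).mp h
    apply hinj
    simpa using this
  obtain ⟨x, hx⟩ := IsAlgClosed.exists_root
    (C (w ^ 2) * X ^ 3 + C (3 * a) * X ^ 2 + C 0 * X + C (4 * w ^ 2) : ℂ[X])
    (by rw [degree_cubic (pow_ne_zero 2 hw0)]; norm_num)
  have hx' : w ^ 2 * x ^ 3 + 3 * a * x ^ 2 + 4 * w ^ 2 = 0 := by simpa [IsRoot] using hx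
  obtain ⟨y, hy⟩ := IsAlgClosed.exists_pow_nat_eq (x ^ 3 + 1) (n := 2) (by norm_num)
  have hx0 : x ≠ 0 := by
    rintro rfl
    have : w ^ 2 = 0 := by linear_combination hx' / 4
    exact hw0 (pow_eq_zero_iff (by norm_num) |>.mp this)
  have hS : (EW L).Nonsingular (algebraMap ℂ L x) (algebraMap ℂ L y) := by
    rw [nonsing, ← map_pow, hy]
    simp
  have hS' : (EW L).Nonsingular (algebraMap ℂ L x) (algebraMap ℂ L (-y)) := by
    rw [nonsing, ← map_pow, neg_sq, hy]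
    simp
  obtain ⟨h1, h2⟩ := hφ _ _ hS
  have hne : algebraMap ℂ L x ≠ algebraMap ℂ L w * algebraMap ℂ L x := by
    rw [← map_mul]
    intro h0
    have h3 := hinj h0
    have h4 : (w - 1) * x = 0 := by linear_combination -h3
    rcases mul_eq_zero.mp h4 with h5 | h5
    · exact hw1 (sub_eq_zero.mp h5)
    · exact hx0 h5
  have key : (WeierstrassCurve.Affine.Point.some _ _ hS -
      φ (WeierstrassCurve.Affine.Point.some _ _ hS) = WeierstrassCurve.Affine.Point.some _ _ h) ∨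
      (WeierstrassCurve.Affine.Point.some _ _ hS -
      φ (WeierstrassCurve.Affine.Point.some _ _ hS) = -WeierstrassCurve.Affine.Point.some _ _ h) := by
    rw [h2, sub_eq_add_neg, WeierstrassCurve.Affine.Point.neg_some,
      WeierstrassCurve.Affine.Point.add_of_X_ne hne]
    apply WeierstrassCurve.Affine.Point.X_eq_iff.mp
    rw [WeierstrassCurve.Affine.slope_of_X_ne hne]
    simp only [WeierstrassCurve.Affine.addX, WeierstrassCurve.Affine.negY, zero_mul, add_zero,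
      sub_zero]
    have h5 : ((y - -y) / (x - w * x)) ^ 2 - x - w * x = a := by
      have h6 : x - w * x ≠ 0 := by
        intro h0
        exact hne (by rw [← map_mul]; congr 1; linear_combination h0)
      rw [div_pow, sub_sub, sub_eq_iff_eq_add, div_eq_iff (pow_ne_zero 2 h6)]
      linear_combination 4 * hy + w * hx' - ((w - 1) * (x ^ 3 + 4) + 3 * (w - 1) * x ^ 3
        + x ^ 2 * ((a - w ^ 2 * x) + x * ((w ^ 2 + w + 1) - 3 * w))) * hw
    have h7 := congrArg (algebraMap ℂ L) h5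
    simpa using h7
  rcases key with key | key
  · exact ⟨x, y, hS, key⟩
  · refine ⟨x, -y, hS', ?_⟩
    have h8 : WeierstrassCurve.Affine.Point.some _ _ hS' =
        -WeierstrassCurve.Affine.Point.some _ _ hS := by
      rw [WeierstrassCurve.Affine.Point.neg_some]
      simp [WeierstrassCurve.Affine.negY]
    rw [h8, map_neg, sub_neg_eq_add, neg_add_eq_sub, ← neg_sub, key, neg_neg]

end Pool.Agent.TH182.J334
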