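import Pool.Agent.TH182.J302c
import Pool.Agent.Helper165.Abs
import Pool.Agent.Helper165.Crep

set_option autoImplicit false
open CategoryTheory Limits AlgebraicGeometry Abelian HomogeneousLocalization
open Pool.Agent.Helper165 Pool.Agent.TH215.TM KaehlerDifferential

namespace Pool.Agent.TH182.TMC

/-- The morphism `ff` with explicit target. -/
noncomputable def FF : YY ⟶ Spec (CommRingCat.of RR) := ff

/-- the ring of the chart `w` -/
abbrev AW : Type := Away (reesPiece J3) (tElt J3 wR wR_mem)

/-- the ring of the chart `x_i` -/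
abbrev AX (i : Fin 3) : Type := Away (reesPiece J3) (tElt J3 (xR i) (xR_mem i))

/-- the chart `w` -/
noncomputable def jW : Spec (CommRingCat.of AW) ⟶ YY := blowChart J3 wR wR_mem

/-- the chart `x_i` -/
noncomputable def jX (i : Fin 3) : Spec (CommRingCat.of (AX i)) ⟶ YY :=
  blowChart J3 (xR i) (xR_mem i)

instance : IsOpenImmersion jW := inferInstanceAs (IsOpenImmersion (blowChart J3 wR wR_mem))

instance (i : Fin 3) : IsOpenImmersion (jX i) :=
  inferInstanceAs (IsOpenImmersion (blowChart J3 (xR i) (xR_mem i)))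

lemma jW_FF : jW ≫ FF = Spec.map (CommRingCat.ofHom (chartMap J3 wR wR_mem)) :=
  blowChart_blowMap J3 wR wR_mem

lemma jX_FF (i : Fin 3) :
    jX i ≫ FF = Spec.map (CommRingCat.ofHom (chartMap J3 (xR i) (xR_mem i))) :=
  blowChart_blowMap J3 (xR i) (xR_mem i)

lemma cV_zero (i : Fin 3) : cV i (i + 0) = bV 0 := by
  simp [cV]

lemma cV_one (i : Fin 3) : cV i (i + 1) = bV 0 * bV 1 := by
  fin_cases i <;> simp [cV]

lemma cV_two (i : Fin 3) : cV i (i + 2) = bV 0 * bT := by
  fin_cases i <;> simp [cV]

lemma hspecFF [IsDomain RR] [IsIntegral YY] [IsDomain AW] (x : Spec (CommRingCat.of RR)) :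
    FF (genericPoint YY) ⤳ x := by
  let z0 : Spec (CommRingCat.of AW) := (⊥ : PrimeSpectrum AW)
  have h1 : genericPoint YY ⤳ jW z0 := generic_specializes _
  have h2 := h1.map FF.continuous
  have h3 : FF (jW z0) = (jW ≫ FF) z0 := rfl
  rw [h3, jW_FF] at h2
  refine h2.trans ?_
  have h4 : PrimeSpectrum.asIdeal (R := RR)
      ((Spec.map (CommRingCat.ofHom (chartMap J3 wR wR_mem))) z0) ≤
        PrimeSpectrum.asIdeal (R := RR) x := by
    intro r hr
    have h5 : chartMap J3 wR wR_mem r ∈ (⊥ : Ideal AW) := hr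
    rw [Ideal.mem_bot, map_eq_zero_iff _ (chartMap_injective J3 wR wR_mem wR_ne_zero)] at h5
    rw [h5]
    exact Ideal.zero_mem _
  exact (PrimeSpectrum.le_iff_specializes _ x).1 h4

theorem crepant' [IsDomain RR] [IsDomain BB] [IsIntegral YY]
    (hW : ∃ e : Away (reesPiece J3) (tElt J3 wR wR_mem) ≃+* S3,
      ∀ r, e (chartMap J3 wR wR_mem r) = cW r)
    (hX : ∀ i : Fin 3, ∃ e : Away (reesPiece J3) (tElt J3 (xR i) (xR_mem i)) ≃+* BB,
      ∀ r, e (chartMap J3 (xR i) (xR_mem i) r) = cX i r) :
    IsCrepant 3 FF (Spec.map (CommRingCat.ofHom (algebraMap ℂ RR))) := by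
  let algK : Algebra ℂ YY.functionField :=
    (constants (FF ≫ Spec.map (CommRingCat.ofHom (algebraMap ℂ RR)))).toAlgebra
  obtain ⟨eW, heW⟩ := hW
  choose eX heX using hX
  have halg : ∀ c, (algebraMap ℂ YY.functionField : ℂ →+* YY.functionField) c =
      gMap FF (algebraMap ℂ RR c) := constants_gMap FF
  have hdomW : IsDomain AW := eW.toMulEquiv.isDomain S3
  have hdomX : ∀ i, IsDomain (AX i) := fun i => (eX i).toMulEquiv.isDomain BB
  -- the chart w
  let γW : S3 →+* YY.functionField := (gammaMap jW).comp eW.symm.toRingHom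
  have hγW : ∀ r, γW (cW r) = gMap FF r := by
    intro r
    rw [← heW]
    change gammaMap jW (eW.symm (eW (chartMap J3 wR wR_mem r))) = _
    rw [RingEquiv.symm_apply_apply]
    exact gammaMap_comp jW FF _ jW_FF r
  have hγWinj : Function.Injective γW :=
    (gammaMap_injective jW).comp eW.symm.injective
  have hγWe : ∀ a : AW, gammaMap jW a = γW (eW a) := by
    intro a
    change _ = gammaMap jW (eW.symm (eW a))
    rw [RingEquiv.symm_apply_apply]
  let γWa : S3 →ₐ[ℂ] YY.functionField :=
    { γW with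
      commutes' := fun c => by
        change γW (MvPolynomial.C c) = _
        rw [← cW_C, hγW, halg] }
  let X : Fin 3 → YY.functionField := fun i => γW (MvPolynomial.X i)
  set u : YY.functionField := gMap FF wR with hu
  have huW : γW wS = u := by rw [← cW_wR, hγW]
  have hu0 : u ≠ 0 := by
    rw [← huW]
    exact (map_ne_zero_iff _ hγWinj).2 wS_ne_zero
  have hxr : ∀ i, gMap FF (xR i) = X i * u := by
    intro i
    rw [← hγW, cW_xR, map_mul, huW]
  have hXeq : ∀ i, X i = gMap FF (xR i) / u := by
    intro i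
    rw [hxr, mul_div_cancel_right₀ _ hu0]
  have hXbij : Function.Bijective (MvPolynomial.aeval (fun i : Fin 3 =>
      (MvPolynomial.X i : S3)) : S3 →ₐ[ℂ] S3) := by
    have h : (MvPolynomial.aeval (fun i : Fin 3 => (MvPolynomial.X i : S3)) :
      S3 →ₐ[ℂ] S3) = AlgHom.id ℂ S3 := by
      apply MvPolynomial.algHom_ext
      intro i
      simp
    rw [h]
    exact Function.bijective_id
  have hind : AlgebraicIndependent ℂ X :=
    algInd_of (fun i : Fin 3 => (MvPolynomial.X i : S3)) hXbij.1 γWa hγWinj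
  have hadj : ∀ r, γW r ∈ Algebra.adjoin ℂ (Set.range X) := fun r =>
    mem_adjoin_of (fun i : Fin 3 => (MvPolynomial.X i : S3)) hXbij.2 γWa r
  have hfrac : ∀ ψ : YY.functionField, ∃ a ∈ Algebra.adjoin ℂ (Set.range X),
      ∃ s ∈ Algebra.adjoin ℂ (Set.range X), s ≠ 0 ∧ ψ = a / s := by
    intro ψ
    obtain ⟨a, s, h1, h2⟩ := exists_frac_generic jW ψ
    rw [hγWe] at h1
    rw [hγWe, hγWe] at h2
    exact ⟨γW (eW a), hadj _, γW (eW s), hadj _, h1, h2⟩
  have h0 : exteriorPower.ιMulti YY.functionField 3 (fun i => D ℂ YY.functionField (X i)) ≠ 0 :=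
    form_ne_zero X hind hfrac
  intro y
  refine ⟨exteriorPower.ιMulti YY.functionField 3 (fun i => D ℂ YY.functionField (X i)), ?_⟩
  rintro O (rfl | ⟨ξ, hξ, -, rfl⟩)
  · have h : (𝟙 YY : YY ⟶ YY) (genericPoint YY) ⤳ y := generic_specializes y
    rw [← localSubring_coe (𝟙 YY) y h]
    apply isGenerator_of_good _ _ h0
    rcases exists_chart_mem y with hy | ⟨i, hy⟩
    · obtain ⟨z, rfl⟩ := hy
      change _ ⤳ jW z at h
      have hmem : ∀ a : AW, gammaMap jW a ∈ localSubring (𝟙 YY) (jW z) h := fun a =>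
        gammaMap_mem jW (jW z) ⟨z, trivial, rfl⟩ h a
      have hXmem : ∀ i, X i ∈ localSubring (𝟙 YY) (jW z) h := fun i => hmem _
      refine ⟨X, hXmem, ?_, 1, ?_, ?_, ?_⟩
      · refine D_mem _ X ?_ hXmem ?_
        · intro c
          rw [halg, ← hγW]
          exact hmem _
        · intro ψ hψ
          obtain ⟨a, s, h1, h2, h3⟩ := exists_frac_chart jW (jW z) ⟨z, trivial, rfl⟩ h ψ hψ
          rw [hγWe] at h1 h2
          rw [hγWe, hγWe] at h3
          exact ⟨γW (eW a), hadj _, γW (eW s), hadj _, h1, h2, h3⟩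
      · intro i
        simp [Matrix.one_apply]
      · rw [Matrix.det_one]; exact Subring.one_mem _
      · rw [Matrix.det_one, inv_one]; exact Subring.one_mem _
    · obtain ⟨z, rfl⟩ := hy
      change _ ⤳ jX i z at h
      change Good ℂ (localSubring (𝟙 YY) (jX i z) h) X
      set O := localSubring (𝟙 YY) (jX i z) h with hO
      have hmem : ∀ a : AX i, gammaMap (jX i) a ∈ O := fun a =>
        gammaMap_mem (jX i) (jX i z) ⟨z, trivial, rfl⟩ h a
      let γ : BB →+* YY.functionField := (gammaMap (jX i)).comp (eX i).symm.toRingHom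
      have hγ : ∀ r, γ (cX i r) = gMap FF r := by
        intro r
        rw [← heX]
        change gammaMap (jX i) ((eX i).symm ((eX i) (chartMap J3 (xR i) (xR_mem i) r))) = _
        rw [RingEquiv.symm_apply_apply]
        exact gammaMap_comp (jX i) FF _ (jX_FF i) r
      have hγmem : ∀ b, γ b ∈ O := fun b => hmem _
      have hγe : ∀ a : AX i, gammaMap (jX i) a = γ (eX i a) := by
        intro a
        change _ = gammaMap (jX i) ((eX i).symm (eX i a))
        rw [RingEquiv.symm_apply_apply]
      have hinv : ∀ b : BB, (eX i).symm b ∉ PrimeSpectrum.asIdeal (R := AX i) z →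
          (γ b)⁻¹ ∈ O := by
        intro b hb
        exact inv_gammaMap_mem (jX i) z h _ hb
      have hne : ∀ b : BB, (eX i).symm b ∉ PrimeSpectrum.asIdeal (R := AX i) z →
          γ b ≠ 0 := by
        intro b hb h'
        have h2 : gammaMap (jX i) ((eX i).symm b) = 0 := h'
        rw [map_eq_zero_iff _ (gammaMap_injective (jX i))] at h2
        apply hb
        rw [h2]
        exact Ideal.zero_mem _
      have hk : ∀ q : ℂ, algebraMap ℂ YY.functionField q ∈ O := by
        intro c
        rw [halg, ← hγ]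
        exact hγmem _
      have hrel : γ bT ^ 3 + (1 + γ (bV 1) ^ 3 + γ (bV 0) * γ (bV 2) ^ 4) = 0 := by
        have := congrArg γ bT_rel
        simpa only [map_add, map_pow, map_mul, map_one, map_zero] using this
      have hγC : ∀ c : ℂ, γ (AdjoinRoot.of _ (MvPolynomial.C c)) =
          algebraMap ℂ YY.functionField c := by
        intro c
        rw [halg, ← hγ, cX_C]
        rfl
      have hF : Frac O ![γ (bV 0), γ (bV 1), γ (bV 2), γ bT] := by
        intro ψ hψ
        obtain ⟨a, s, h1, h2, h3⟩ := exists_frac_chart (jX i) (jX i z) ⟨z, trivial, rfl⟩ h ψ hψ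
        rw [hγe] at h1 h2
        rw [hγe, hγe] at h3
        have hg := gen_adjoin _ γ hγC ![γ (bV 0), γ (bV 1), γ (bV 2), γ bT]
          (by
            intro i
            fin_cases i
            · exact ⟨0, rfl⟩
            · exact ⟨1, rfl⟩
            · exact ⟨2, rfl⟩) ⟨3, rfl⟩
        exact ⟨γ (eX i a), hg _, γ (eX i s), hg _, h1, h2, h3⟩
      have hua : u = γ (bV 0) * γ (bV 2) := by
        rw [hu, ← hγ, cX_wR, map_mul]
      have ha0 : γ (bV 0) ≠ 0 := by
        intro h'
        apply hu0
        rw [hua, h', zero_mul]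
      have hc0 : γ (bV 2) ≠ 0 := by
        intro h'
        apply hu0
        rw [hua, h', mul_zero]
      have hkey : ∀ m, X (i + m) = ![(γ (bV 2))⁻¹, γ (bV 1) / γ (bV 2), γ bT / γ (bV 2)] m := by
        intro m
        rw [hXeq, ← hγ, cX_xR, hua]
        fin_cases m
        · change γ (cV i (i + 0)) / _ = (γ (bV 2))⁻¹
          rw [cV_zero]
          field_simp
        · change γ (cV i (i + 1)) / _ = γ (bV 1) / γ (bV 2)
          rw [cV_one, map_mul]
          field_simp
        · change γ (cV i (i + 2)) / _ = γ bT / γ (bV 2)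
          rw [cV_two, map_mul]
          field_simp
      have hXσ : X = ![(γ (bV 2))⁻¹, γ (bV 1) / γ (bV 2), γ bT / γ (bV 2)] ∘
          (Equiv.subRight i) := by
        funext j
        have := hkey (j - i)
        rw [add_sub_cancel] at this
        exact this
      rw [hXσ]
      apply Good.perm
      by_cases hd : (eX i).symm bT ∈ PrimeSpectrum.asIdeal (R := AX i) z
      · by_cases hb : (eX i).symm (bV 1) ∈ PrimeSpectrum.asIdeal (R := AX i) z
        · by_cases hc : (eX i).symm (bV 2) ∈ PrimeSpectrum.asIdeal (R := AX i) z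
          · exfalso
            let I : Ideal BB := Ideal.comap ((eX i).symm.toRingHom)
              (PrimeSpectrum.asIdeal (R := AX i) z)
            have hd' : bT ∈ I := hd
            have hb' : bV 1 ∈ I := hb
            have hc' : bV 2 ∈ I := hc
            have h2 : (1 : BB) = -(bT ^ 3 + bV 1 ^ 3 + bV 0 * bV 2 ^ 4) := by
              linear_combination bT_rel
            have h3 : (1 : BB) ∈ I := by
              rw [h2]
              refine (Ideal.neg_mem_iff _).2 ?_
              refine Ideal.add_mem _ (Ideal.add_mem _ ?_ ?_) ?_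
              · exact Ideal.pow_mem_of_mem _ hd' 3 (by norm_num)
              · exact Ideal.pow_mem_of_mem _ hb' 3 (by norm_num)
              · exact Ideal.mul_mem_left _ _ (Ideal.pow_mem_of_mem _ hc' 4 (by norm_num))
            have h4 : (eX i).symm 1 ∈ PrimeSpectrum.asIdeal (R := AX i) z := h3
            rw [map_one] at h4
            exact (PrimeSpectrum.isPrime (R := AX i) z).ne_top
              ((Ideal.eq_top_iff_one _).2 h4)
          · exact chart_good_c O _ _ _ _ hk hrel (hγmem _) (hγmem _) (hγmem _) (hγmem _) hF hc0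
              (hinv _ hc)
        · exact chart_good_b O _ _ _ _ hk hrel (hγmem _) (hγmem _) (hγmem _) (hγmem _) hF hc0
            (hne _ hb) (hinv _ hb)
      · exact chart_good_d O _ _ _ _ hk hrel (hγmem _) (hγmem _) (hγmem _) (hγmem _) hF hc0
          (hne _ hd) (hinv _ hd)
  · have h := hspecFF ξ
    rw [← localSubring_coe FF ξ h]
    apply isGenerator_of_good _ _ h0
    set O := localSubring FF ξ h with hO
    have hmem : ∀ a : RR, gMap FF a ∈ O := fun a => gMap_mem FF ξ h a
    have hginj : Function.Injective (gMap FF) := by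
      intro a b hab
      rw [← hγW, ← hγW] at hab
      have h1 := hγWinj hab
      rw [← heW, ← heW] at h1
      exact chartMap_injective J3 wR wR_mem wR_ne_zero (eW.injective h1)
    have hne : ∀ s : RR, s ∉ PrimeSpectrum.asIdeal (R := RR) ξ → gMap FF s ≠ 0 := by
      intro s hs h'
      rw [map_eq_zero_iff _ hginj] at h'
      apply hs
      rw [h']
      exact Ideal.zero_mem _
    have hinv : ∀ s : RR, s ∉ PrimeSpectrum.asIdeal (R := RR) ξ → (gMap FF s)⁻¹ ∈ O :=
      fun s hs => inv_gMap_mem FF ξ h s hs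
    have hk : ∀ q : ℂ, algebraMap ℂ YY.functionField q ∈ O := by
      intro c
      rw [halg]
      exact hmem _
    have hrel : gMap FF wR ^ 4 + (gMap FF (xR 0) ^ 3 + gMap FF (xR 1) ^ 3 +
        gMap FF (xR 2) ^ 3) = 0 := by
      have := congrArg (gMap FF) wR_rel
      simpa only [map_add, map_pow, map_mul, map_one, map_zero] using this
    have hγC : ∀ c : ℂ, gMap FF (AdjoinRoot.of _ (MvPolynomial.C c)) =
        algebraMap ℂ YY.functionField c := by
      intro c
      rw [halg]
      rfl
    have hF : Frac O ![gMap FF (xR 0), gMap FF (xR 1), gMap FF (xR 2), gMap FF wR] := by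
      intro ψ hψ
      obtain ⟨a, s, h1, h2, h3⟩ := exists_frac_target FF ξ h ψ hψ
      have hg := gen_adjoin _ (gMap FF) hγC
        ![gMap FF (xR 0), gMap FF (xR 1), gMap FF (xR 2), gMap FF wR]
        (by
          intro i
          fin_cases i
          · exact ⟨0, rfl⟩
          · exact ⟨1, rfl⟩
          · exact ⟨2, rfl⟩) ⟨3, rfl⟩
      exact ⟨gMap FF a, hg _, gMap FF s, hg _, h1, h2, h3⟩
    have hXv : X = ![gMap FF (xR 0) / gMap FF wR, gMap FF (xR 1) / gMap FF wR,
        gMap FF (xR 2) / gMap FF wR] := by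
      funext i
      rw [hXeq]
      fin_cases i <;> rfl
    rw [hXv]
    rcases exists_notMem_of_coheight wR_ne_zero ξ hξ with h1 | ⟨i, h1⟩
    · exact base_good_u O _ _ _ _ hk hrel (hmem _) (hmem _) (hmem _) (hmem _) hF hu0 (hinv _ h1)
    · fin_cases i
      · exact base_good_a O _ _ _ _ hk hrel (hmem _) (hmem _) (hmem _) (hmem _) hF hu0
          (hne _ h1) (hinv _ h1)
      · exact base_good_b O _ _ _ _ hk hrel (hmem _) (hmem _) (hmem _) (hmem _) hF hu0
          (hne _ h1) (hinv _ h1)
      · exact base_good_c O _ _ _ _ hk hrel (hmem _) (hmem _) (hmem _) (hmem _) hF hu0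
          (hne _ h1) (hinv _ h1)

theorem crepant [IsDomain RR] [IsDomain BB] [IsIntegral YY]
    (hW : ∃ e : Away (reesPiece J3) (tElt J3 wR wR_mem) ≃+* S3,
      ∀ r, e (chartMap J3 wR wR_mem r) = cW r)
    (hX : ∀ i : Fin 3, ∃ e : Away (reesPiece J3) (tElt J3 (xR i) (xR_mem i)) ≃+* BB,
      ∀ r, e (chartMap J3 (xR i) (xR_mem i) r) = cX i r) :
    IsCrepant 3 ff piX := crepant' hW hX

end Pool.Agent.TH182.TMC
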