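import Mathlib
set_option autoImplicit false
namespace Pool.Agent.TH182.J447
open Finset MeasureTheory ProbabilityTheory
open scoped ENNReal
open Classical in
/-- Chebyshev's inequality for the number of independent points in a set. -/
theorem count_lower {ι : Type*} [Fintype ι] (μ : ι → Measure ℂ)
    [∀ i, IsProbabilityMeasure (μ i)] (B : Set ℂ) (hB : MeasurableSet B)
    (hpos : 0 < ∑ i, (μ i B).toReal) :
    (Measure.pi μ) {x : ι → ℂ | ((univ.filter (fun i => x i ∈ B)).card : ℝ)
        < (∑ i, (μ i B).toReal) / 2} ≤ ENNReal.ofReal (4 / ∑ i, (μ i B).toReal) := by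
  set lam := ∑ i, (μ i B).toReal with hlam
  set Y : ℂ → ℝ := B.indicator (fun _ => (1 : ℝ)) with hY
  have hYm : Measurable Y := measurable_const.indicator hB
  have hY0 : ∀ z, 0 ≤ Y z := fun z => Set.indicator_nonneg (fun _ _ => zero_le_one) z
  have hY1 : ∀ z, Y z ≤ 1 := fun z => by
    by_cases hz : z ∈ B
    · simp [hY, hz]
    · simp [hY, hz]
  have hYL : ∀ i, MemLp Y 2 (μ i) := fun i =>
    memLp_of_bounded (Filter.Eventually.of_forall fun z => ⟨hY0 z, hY1 z⟩)
      hYm.aestronglyMeasurable 2
  have hYint : ∀ i, ∫ z, Y z ∂μ i = (μ i B).toReal := by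
    intro i
    rw [hY, integral_indicator hB]
    simp [Measure.real]
  set N : (ι → ℂ) → ℝ := ∑ i, fun x => Y (x i) with hN
  have hNx : ∀ x, N x = ((univ.filter (fun i => x i ∈ B)).card : ℝ) := by
    intro x
    rw [hN, Finset.sum_apply, Finset.card_filter, Nat.cast_sum]
    refine Finset.sum_congr rfl fun i _ => ?_
    by_cases hz : x i ∈ B
    · simp [hY, hz]
    · simp [hY, hz]
  have hcomp : ∀ i, MemLp (fun x : ι → ℂ => Y (x i)) 2 (Measure.pi μ) := fun i =>
    (hYL i).comp_measurePreserving (measurePreserving_eval _ i)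
  have hNL : MemLp N 2 (Measure.pi μ) := memLp_finsetSum' _ fun i _ => hcomp i
  have hEN : ∫ x, N x ∂Measure.pi μ = lam := by
    have h1 : ∀ x, N x = ∑ i, Y (x i) := fun x => by rw [hN, Finset.sum_apply]
    simp_rw [h1]
    rw [integral_finsetSum _ fun i _ => (hcomp i).integrable (by norm_num), hlam]
    refine Finset.sum_congr rfl fun i _ => ?_
    rw [← hYint i]
    have h2 := integral_map (μ := Measure.pi μ) (φ := Function.eval i)
      (measurable_pi_apply i).aemeasurable (f := Y) hYm.aestronglyMeasurable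
    rw [(measurePreserving_eval μ i).map_eq] at h2
    exact h2.symm
  have hvar : variance N (Measure.pi μ) ≤ lam := by
    rw [hN, variance_sum_pi (X := fun _ => Y) hYL, hlam]
    refine Finset.sum_le_sum fun i _ => ?_
    refine (variance_le_expectation_sq hYm.aestronglyMeasurable).trans (le_of_eq ?_)
    rw [← hYint i]
    refine integral_congr_ae (Filter.Eventually.of_forall fun z => ?_)
    by_cases hz : z ∈ B
    · simp [hY, hz]
    · simp [hY, hz]
  have hch := meas_ge_le_variance_div_sq hNL (c := lam / 2) (by positivity)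
  refine (measure_mono ?_).trans (hch.trans (ENNReal.ofReal_le_ofReal ?_))
  · intro x hx
    rw [Set.mem_ofPred_eq, ← hNx] at hx
    rw [Set.mem_ofPred_eq, hEN, abs_sub_comm]
    refine le_trans ?_ (le_abs_self _)
    linarith
  · rw [div_le_div_iff₀ (by positivity) hpos]
    nlinarith [hvar, hpos]

end Pool.Agent.TH182.J447
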