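import Mathlib
set_option autoImplicit false
namespace Pool.Agent.TH182.J446
open Finset MeasureTheory
open scoped ENNReal

theorem lintegral_pi_le_update {ι : Type*} [Fintype ι] [DecidableEq ι] (μ : ι → Measure ℂ)
    [∀ i, IsProbabilityMeasure (μ i)] (i : ι) (f : (ι → ℂ) → ℝ≥0∞) (hf : Measurable f)
    (b : ℝ≥0∞) (h : ∀ x : ι → ℂ, ∫⁻ t, f (Function.update x i t) ∂μ i ≤ b) :
    ∫⁻ x, f x ∂Measure.pi μ ≤ b := by
  have h1 : ∫⁻ x, f x ∂Measure.pi μ ≤ ∫⁻ _ : ι → ℂ, b ∂Measure.pi μ := by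
    refine lintegral_le_of_lmarginal_le {i} hf measurable_const ?_
    rw [lmarginal_singleton, lmarginal_singleton]
    intro x
    simpa using h x
  simpa using h1

theorem lintegral_pi_le_update2 {ι : Type*} [Fintype ι] [DecidableEq ι] (μ : ι → Measure ℂ)
    [∀ i, IsProbabilityMeasure (μ i)] (a i : ι) (hai : a ≠ i) (f : (ι → ℂ) → ℝ≥0∞)
    (hf : Measurable f) (b : ℝ≥0∞)
    (h : ∀ x : ι → ℂ,
      ∫⁻ t, ∫⁻ s, f (Function.update (Function.update x a s) i t) ∂μ a ∂μ i ≤ b) :
    ∫⁻ x, f x ∂Measure.pi μ ≤ b := by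
  have h1 : ∫⁻ x, f x ∂Measure.pi μ ≤ ∫⁻ _ : ι → ℂ, b ∂Measure.pi μ := by
    refine lintegral_le_of_lmarginal_le (insert i {a}) hf measurable_const ?_
    have hi : i ∉ ({a} : Finset ι) := by
      rw [mem_singleton]; exact hai.symm
    intro x
    rw [lmarginal_insert f hf hi, lmarginal_insert (fun _ => b) measurable_const hi,
      lmarginal_singleton, lmarginal_singleton]
    simp only [lintegral_const, measure_univ, mul_one]
    refine le_trans (le_of_eq ?_) (h x)
    refine lintegral_congr fun t => lintegral_congr fun s => ?_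
    rw [Function.update_comm hai.symm]
  simpa using h1

end Pool.Agent.TH182.J446
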