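import Mathlib

set_option autoImplicit false

open Filter Topology Metric

namespace Pool.Agent.TH182.J242

/-- elementary factors -/
lemma exists_factor (m : ℕ) {ε : ℝ} (hε : 0 < ε) :
    ∃ h : ℂ → ℂ, Differentiable ℂ h ∧ h 0 = 1 ∧
      ∀ w : ℂ, ‖w‖ ≤ 1 / 2 → ‖(1 - w) ^ m * h w - 1‖ ≤ ε := by
  obtain ⟨n, hn⟩ : ∃ n : ℕ, (m : ℝ) * (1 / 2) ^ n < min 1 (ε / 2) := by
    have h1 : Tendsto (fun n : ℕ => (m : ℝ) * (1 / 2) ^ n) atTop (𝓝 (m * 0)) :=
      (tendsto_pow_atTop_nhds_zero_of_lt_one (by norm_num) (by norm_num)).const_mul _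
    rw [mul_zero] at h1
    exact (h1.eventually_lt_const (show (0 : ℝ) < min 1 (ε / 2) by positivity)).exists
  refine ⟨fun w => Complex.exp (-(m : ℂ) * Complex.logTaylor (n + 1) (-w)), ?_, ?_, ?_⟩
  · have h1 : Differentiable ℂ (Complex.logTaylor (n + 1)) := by
      intro z
      have h2 := Complex.hasDerivAt_logTaylor n z
      exact h2.differentiableAt
    fun_prop
  · simp [Complex.logTaylor_at_zero]
  · intro w hw
    have hw1 : ‖-w‖ < 1 := by rw [norm_neg]; linarith
    have h1 := Complex.norm_log_sub_logTaylor_le n hw1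
    have hne : (1 : ℂ) - w ≠ 0 := by
      intro h
      have : w = 1 := by linear_combination -h
      rw [this] at hw
      norm_num at hw
    have h2 : (1 - w) ^ m * Complex.exp (-(m : ℂ) * Complex.logTaylor (n + 1) (-w))
        = Complex.exp ((m : ℂ) * (Complex.log (1 + -w) - Complex.logTaylor (n + 1) (-w))) := by
      have h0 : (m : ℂ) * (Complex.log (1 + -w) - Complex.logTaylor (n + 1) (-w))
          = (m : ℂ) * Complex.log (1 + -w) + -(m : ℂ) * Complex.logTaylor (n + 1) (-w) := by ring
      rw [h0, Complex.exp_add, ← sub_eq_add_neg]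
      congr 1
      rw [Complex.exp_nat_mul, Complex.exp_log hne]
    rw [h2]
    set u := (m : ℂ) * (Complex.log (1 + -w) - Complex.logTaylor (n + 1) (-w)) with hu
    have h3 : ‖u‖ ≤ m * (1 / 2) ^ n := by
      rw [hu, norm_mul, Complex.norm_natCast]
      gcongr
      refine h1.trans ?_
      rw [norm_neg] at *
      have h4 : ‖w‖ ^ (n + 1) ≤ (1 / 2) ^ (n + 1) := by gcongr
      have h5 : (1 - ‖w‖)⁻¹ ≤ 2 := by
        rw [inv_le_comm₀ (by linarith) (by norm_num)]
        linarith
      calc ‖w‖ ^ (n + 1) * (1 - ‖w‖)⁻¹ / (n + 1) ≤ ‖w‖ ^ (n + 1) * (1 - ‖w‖)⁻¹ / 1 := by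
            have : 0 ≤ (1 - ‖w‖)⁻¹ := inv_nonneg.mpr (by linarith)
            gcongr
            linarith [(Nat.cast_nonneg n : (0 : ℝ) ≤ n)]
        _ ≤ (1 / 2) ^ (n + 1) * 2 / 1 := by gcongr
        _ = (1 / 2) ^ n := by rw [pow_succ]; ring
    have h6 : ‖u‖ ≤ 1 := h3.trans (hn.le.trans (min_le_left _ _))
    calc ‖Complex.exp u - 1‖ ≤ 2 * ‖u‖ := Complex.norm_exp_sub_one_le h6
      _ ≤ 2 * (ε / 2) := by
          have := h3.trans (hn.le.trans (min_le_right _ _))
          linarith
      _ = ε := by ring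

/-- a family of entire functions whose product converges -/
structure Fam {ι : Type*} (g : ι → ℂ → ℂ) : Prop where
  diff : ∀ i, Differentiable ℂ (g i)
  bd : ∃ ε : ι → ℝ, Summable ε ∧ ∀ R : ℝ, ∀ᶠ i in cofinite, ∀ z : ℂ, ‖z‖ ≤ R → ‖g i z - 1‖ ≤ ε i

variable {ι : Type*}

lemma Fam.hasProd {g : ι → ℂ → ℂ} (hg : Fam g) :
    HasProdLocallyUniformlyOn g (fun z => ∏' i, g i z) Set.univ := by
  obtain ⟨ε, hε, hb⟩ := hg.bd
  have key : HasProdLocallyUniformlyOn (fun i z => 1 + (g i z - 1))
      (fun z => ∏' i, (1 + (g i z - 1))) Set.univ := by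
    apply hasProdLocallyUniformlyOn_of_forall_compact isOpen_univ
    intro K _ hK
    obtain ⟨R, hR⟩ := hK.isBounded.exists_norm_le
    refine Summable.hasProdUniformlyOn_one_add hK (u := ε) hε ?_ ?_
    · filter_upwards [hb R] with i hi z hz
      exact hi z (hR z hz)
    · intro i
      exact ((hg.diff i).continuous.sub continuous_const).continuousOn
  have e1 : (fun (i : ι) (z : ℂ) => 1 + (g i z - 1)) = g := by
    funext i z; ring
  have e2 : (fun z => ∏' i, (1 + (g i z - 1))) = fun z => ∏' i, g i z := by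
    funext z
    congr 1
    funext i; ring
  rw [e1, e2] at key
  exact key

lemma Fam.differentiable {g : ι → ℂ → ℂ} (hg : Fam g) :
    Differentiable ℂ (fun z => ∏' i, g i z) := by
  rw [← differentiableOn_univ]
  have h := hg.hasProd
  rw [hasProdLocallyUniformlyOn_iff_tendstoLocallyUniformlyOn] at h
  refine h.differentiableOn ?_ isOpen_univ
  filter_upwards with s
  apply DifferentiableOn.fun_finsetProd
  intro i _
  exact (hg.diff i).differentiableOn

lemma Fam.multipliable {g : ι → ℂ → ℂ} (hg : Fam g) (z : ℂ) : Multipliable fun i => g i z := by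
  have h := hg.hasProd
  exact (h.hasProd (Set.mem_univ z)).multipliable

lemma Fam.update [DecidableEq ι] {g : ι → ℂ → ℂ} (hg : Fam g) (j : ι) :
    Fam (Function.update g j (fun _ => 1)) := by
  obtain ⟨ε, hε, hb⟩ := hg.bd
  refine ⟨?_, ε, hε, ?_⟩
  · intro i
    by_cases h : i = j
    · subst h
      rw [Function.update_self]
      exact differentiable_const _
    · rw [Function.update_of_ne h]; exact hg.diff i
  · intro R
    filter_upwards [hb R, (Set.finite_singleton j).eventually_cofinite_notMem] with i hi hj z hz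
    have h : i ≠ j := by simpa using hj
    rw [Function.update_of_ne h]
    exact hi z hz

lemma Fam.split [DecidableEq ι] {g : ι → ℂ → ℂ} (hg : Fam g) (j : ι) (z : ℂ) :
    ∏' i, g i z = g j z * ∏' i, Function.update g j (fun _ => 1) i z := by
  have hm : Multipliable (Function.update (fun i => g i z) j 1) := by
    have := (hg.update j).multipliable z
    refine this.congr fun i => ?_
    by_cases h : i = j
    · subst h; simp
    · rw [Function.update_of_ne h, Function.update_of_ne h]
  rw [hm.tprod_eq_mul_tprod_ite']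
  congr 1
  refine tprod_congr fun i => ?_
  by_cases h : i = j
  · subst h; simp
  · rw [Function.update_of_ne h, if_neg h]

/-- Weierstrass: a meromorphic function on `ℂ` is a quotient of entire functions. -/
theorem exists_entire_mul (f : ℂ → ℂ) (hf : ∀ z, MeromorphicAt f z) :
    ∃ q p : ℂ → ℂ, Differentiable ℂ q ∧ Differentiable ℂ p ∧ (∃ z, q z ≠ 0) ∧
      ∀ z, AnalyticAt ℂ f z → q z * f z = p z := by
  classical
  set P : Set ℂ := {a | ¬ AnalyticAt ℂ f a} with hP
  -- local finiteness
  have hfin : ∀ R : ℝ, (P ∩ closedBall 0 R).Finite := by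
    intro R
    by_contra hinf
    obtain ⟨x, -, hx⟩ := Set.Infinite.exists_accPt_of_subset_isCompact hinf
      (isCompact_closedBall (0 : ℂ) R) Set.inter_subset_right
    have h1 := (hf x).eventually_analyticAt
    have h2 : ∃ᶠ y in 𝓝[≠] x, y ∈ P ∩ closedBall 0 R := accPt_iff_frequently_nhdsNE.mp hx
    obtain ⟨y, hy, hy2⟩ := (h2.and_eventually h1).exists
    exact hy.1 hy2
  have hcount : P.Countable := by
    have h1 : P ⊆ ⋃ n : ℕ, P ∩ closedBall 0 n := by
      intro a ha
      obtain ⟨n, hn⟩ := exists_nat_ge ‖a‖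
      exact Set.mem_iUnion.mpr ⟨n, ha, by simpa using hn⟩
    exact (Set.countable_iUnion fun n : ℕ => (hfin n).countable).mono h1
  obtain ⟨c, hc⟩ : ∃ c : ℂ, c ∉ P := by
    by_contra hcon
    push Not at hcon
    have : P = Set.univ := Set.eq_univ_of_forall hcon
    rw [this] at hcount
    exact not_countable_complex hcount
  have : Countable P := hcount.to_subtype
  have : Encodable P := Encodable.ofCountable P
  obtain ⟨ε, hε0, _, hεs, _⟩ := posSumOfEncodable (show (0 : ℝ) < 1 by norm_num) P
  have hm : ∀ a : P, ∃ n : ℕ, AnalyticAt ℂ (fun z => (z - (a : ℂ)) ^ n • f z) a := fun a => hf a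
  choose m hm using hm
  have hh : ∀ a : P, ∃ h : ℂ → ℂ, Differentiable ℂ h ∧ h 0 = 1 ∧
      ∀ w : ℂ, ‖w‖ ≤ 1 / 2 → ‖(1 - w) ^ (m a) * h w - 1‖ ≤ ε a :=
    fun a => exists_factor (m a) (hε0 a)
  choose h hhd hh0 hhb using hh
  set g : P → ℂ → ℂ := fun a z =>
    (1 - (z - c) / ((a : ℂ) - c)) ^ (m a) * h a ((z - c) / ((a : ℂ) - c)) with hg
  have hac : ∀ a : P, (a : ℂ) - c ≠ 0 := fun a h0 => hc (by
    have : (a : ℂ) = c := by linear_combination h0
    rw [← this]; exact a.2)
  have hFam : Fam g := by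
    refine ⟨?_, ε, hεs.summable, ?_⟩
    · intro a
      have := hhd a
      simp only [hg]
      fun_prop
    · intro R
      have hfinR : {a : P | ‖(a : ℂ) - c‖ < 2 * (R + ‖c‖)}.Finite := by
        refine Set.Finite.of_finite_image (f := Subtype.val) ?_ Subtype.val_injective.injOn
        refine (hfin (2 * (R + ‖c‖) + ‖c‖)).subset ?_
        rintro _ ⟨a, ha, rfl⟩
        refine ⟨a.2, ?_⟩
        rw [mem_closedBall, dist_zero_right]
        have : ‖(a : ℂ)‖ ≤ ‖(a : ℂ) - c‖ + ‖c‖ := by
          simpa using norm_add_le ((a : ℂ) - c) c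
        have ha' : ‖(a : ℂ) - c‖ < 2 * (R + ‖c‖) := ha
        linarith
      filter_upwards [hfinR.eventually_cofinite_notMem] with a ha z hz
      have ha' : 2 * (R + ‖c‖) ≤ ‖(a : ℂ) - c‖ := by simpa using ha
      refine hhb a _ ?_
      rw [norm_div, div_le_iff₀ (norm_pos_iff.mpr (hac a))]
      have : ‖z - c‖ ≤ R + ‖c‖ := (norm_sub_le _ _).trans (by linarith)
      linarith
  refine ⟨fun z => ∏' a, g a z, fun z => (∏' a, g a z) * f z, hFam.differentiable, ?_, ⟨c, ?_⟩,
    fun z _ => rfl⟩
  · intro z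
    by_cases hz : AnalyticAt ℂ f z
    · exact ((hFam.differentiable.analyticAt z).mul hz).differentiableAt
    · set a : P := ⟨z, hz⟩ with ha
      have h1 : (fun z => (∏' a, g a z) * f z) = fun w =>
          ((w - (a : ℂ)) ^ (m a) • f w) * (((-1 / ((a : ℂ) - c)) ^ (m a)) *
            h a ((w - c) / ((a : ℂ) - c)) * ∏' i, Function.update g a (fun _ => 1) i w) := by
        funext w
        rw [hFam.split a w]
        have h2 : g a w = (w - (a : ℂ)) ^ (m a) * ((-1 / ((a : ℂ) - c)) ^ (m a) *
            h a ((w - c) / ((a : ℂ) - c))) := by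
          simp only [hg]
          rw [← mul_assoc, ← mul_pow]
          congr 2
          have := hac a
          field_simp
          ring
        rw [h2, smul_eq_mul]
        ring
      rw [h1]
      have h3 : Differentiable ℂ fun w : ℂ => h a ((w - c) / ((a : ℂ) - c)) := by
        have := hhd a
        fun_prop
      have h4 := (hFam.update a).differentiable
      have h5 : AnalyticAt ℂ (fun w => (w - (a : ℂ)) ^ (m a) • f w) z := hm a
      exact (h5.differentiableAt).mul ((((differentiable_const _).mul h3).mul h4) z)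
  · have : ∀ a : P, g a c = 1 := by
      intro a
      simp [hg, hh0]
    simp [this]

end Pool.Agent.TH182.J242
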