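import Mathlib

set_option autoImplicit false

namespace Pool.Agent.TH182.J244

section Poly
open Polynomial

/-- the Fermat polynomial over `ℂ[V]` -/
noncomputable def P : (ℂ[X])[X] := X ^ 16 + C (X ^ 16 + 1)

lemma P_monic : P.Monic := monic_X_pow_add_C _ (by norm_num)

lemma P_natDegree : P.natDegree = 16 := natDegree_X_pow_add_C

lemma P_irreducible : Irreducible P := by
  obtain ⟨ζ, hζ⟩ := IsAlgClosed.exists_pow_nat_eq (-1 : ℂ) (n := 16) (by norm_num)
  have hζ0 : ζ ≠ 0 := by
    rintro rfl
    norm_num at hζ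
  have hprime : (Ideal.span {X - C ζ} : Ideal ℂ[X]).IsPrime := by
    rw [Ideal.span_singleton_prime (X_sub_C_ne_zero ζ)]
    exact prime_X_sub_C ζ
  have hroot : (X ^ 16 + 1 : ℂ[X]) ∈ (Ideal.span {X - C ζ} : Ideal ℂ[X]) := by
    rw [Ideal.mem_span_singleton, dvd_iff_isRoot]
    simp [hζ]
  refine irreducible_of_eisenstein_criterion hprime ?_ ?_ ?_ ?_ P_monic.isPrimitive
  · rw [P_monic.leadingCoeff]
    exact fun h => hprime.ne_top ((Ideal.eq_top_iff_one _).mpr h)
  · intro n hn
    rw [degree_eq_natDegree P_monic.ne_zero, P_natDegree] at hn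
    have hn' : n < 16 := by exact_mod_cast hn
    unfold P
    rw [coeff_add, coeff_X_pow, if_neg (by omega), zero_add, coeff_C]
    split_ifs
    · exact hroot
    · exact Ideal.zero_mem _
  · rw [degree_eq_natDegree P_monic.ne_zero, P_natDegree]
    norm_num
  · have h0 : P.coeff 0 = X ^ 16 + 1 := by
      unfold P
      rw [coeff_add, coeff_X_pow, if_neg (by norm_num), zero_add, coeff_C_zero]
    rw [h0, Ideal.span_singleton_pow, Ideal.mem_span_singleton]
    rintro ⟨q, hq⟩
    have h1 := congrArg derivative hq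
    have h2 := congrArg (eval ζ) h1
    simp [derivative_pow] at h2
    exact hζ0 h2

lemma exists_sixteen (c : ℂ) (hc : c ≠ 0) : ∃ s : Finset ℂ, s.card = 16 ∧ ∀ a ∈ s, a ^ 16 = c := by
  obtain ⟨a0, ha0⟩ := IsAlgClosed.exists_pow_nat_eq c (n := 16) (by norm_num)
  have ha00 : a0 ≠ 0 := by
    rintro rfl
    exact hc (by rw [← ha0]; norm_num)
  classical
  refine ⟨(Polynomial.nthRootsFinset 16 (1 : ℂ)).image (a0 * ·), ?_, ?_⟩
  · rw [Finset.card_image_of_injective _ (mul_right_injective₀ ha00)]
    exact (Complex.isPrimitiveRoot_exp 16 (by norm_num)).card_nthRootsFinset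
  · intro a ha
    obtain ⟨b, hb, rfl⟩ := Finset.mem_image.mp ha
    have := (Polynomial.mem_nthRootsFinset (by norm_num) _).mp hb
    rw [mul_pow, this, ha0, mul_one]

lemma dvd_iff (p : (ℂ[X])[X]) : P ∣ p ↔
    ∀ a b : ℂ, a ^ 16 + b ^ 16 + 1 = 0 → eval a (p.map (evalRingHom b)) = 0 := by
  constructor
  · rintro ⟨q, rfl⟩ a b hab
    rw [Polynomial.map_mul, eval_mul]
    have : eval a (P.map (evalRingHom b)) = 0 := by
      unfold P
      simp
      linear_combination hab
    rw [this, zero_mul]
  · intro h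
    rw [← modByMonic_eq_zero_iff_dvd P_monic]
    set r := p %ₘ P with hr
    have hrd : r.natDegree < 16 := by
      have := natDegree_modByMonic_lt p P_monic (by
        intro h1
        have := P_natDegree
        rw [h1] at this
        simp at this)
      rwa [P_natDegree] at this
    have hreval : ∀ a b : ℂ, a ^ 16 + b ^ 16 + 1 = 0 → eval a (r.map (evalRingHom b)) = 0 := by
      intro a b hab
      have h1 := h a b hab
      have h2 := modByMonic_add_div p P
      rw [← h2, Polynomial.map_add, Polynomial.map_mul, eval_add, eval_mul] at h1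
      have h3 : eval a (P.map (evalRingHom b)) = 0 := by
        unfold P
        simp
        linear_combination hab
      rwa [h3, zero_mul, add_zero] at h1
    have hb : ∀ b : ℂ, b ^ 16 + 1 ≠ 0 → r.map (evalRingHom b) = 0 := by
      intro b hb
      obtain ⟨s, hs, hs2⟩ := exists_sixteen (-(b ^ 16 + 1)) (neg_ne_zero.mpr hb)
      refine eq_zero_of_natDegree_lt_card_of_eval_eq_zero' _ s ?_ ?_
      · intro a ha
        exact hreval a b (by rw [hs2 a ha]; ring)
      · rw [hs]
        exact (natDegree_map_le).trans_lt hrd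
    ext1 i
    rw [coeff_zero]
    refine eq_zero_of_infinite_isRoot _ ?_
    have hfin : {b : ℂ | b ^ 16 + 1 = 0}.Finite := by
      have : {b : ℂ | b ^ 16 + 1 = 0} = {b : ℂ | IsRoot (X ^ 16 + 1 : ℂ[X]) b} := by
        ext b; simp [IsRoot]
      rw [this]
      by_contra hinf
      have h0 := eq_zero_of_infinite_isRoot _ hinf
      have h1 : (X ^ 16 + C 1 : ℂ[X]).Monic := monic_X_pow_add_C _ (by norm_num)
      rw [map_one] at h1
      exact h1.ne_zero h0
    refine (hfin.infinite_compl).mono ?_
    intro b hb'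
    have := congrArg (fun q => coeff q i) (hb b hb')
    simpa using this

end Poly

open MvPolynomial

/-- the map to `ℂ[V][U]` -/
noncomputable def φ : MvPolynomial (Fin 2) ℂ →ₐ[ℂ] Polynomial (Polynomial ℂ) :=
  aeval ![Polynomial.X, Polynomial.C Polynomial.X]

abbrev F : Type := FractionRing (Polynomial ℂ)

noncomputable abbrev PF : Polynomial F := P.map (algebraMap (Polynomial ℂ) F)

instance : Fact (Irreducible PF) :=
  ⟨(P_monic.irreducible_iff_irreducible_map_fraction_map).mp P_irreducible⟩

abbrev K : Type := AdjoinRoot PF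

noncomputable abbrev v : K := algebraMap F K (algebraMap (Polynomial ℂ) F Polynomial.X)
noncomputable abbrev u : K := AdjoinRoot.root PF

lemma aeval_uv (g : MvPolynomial (Fin 2) ℂ) :
    aeval ![u, v] g = AdjoinRoot.mk PF ((φ g).map (algebraMap (Polynomial ℂ) F)) := by
  have : (aeval ![u, v] : MvPolynomial (Fin 2) ℂ →ₐ[ℂ] K).toRingHom =
      ((AdjoinRoot.mk PF).comp (Polynomial.mapRingHom (algebraMap (Polynomial ℂ) F))).comp
        φ.toRingHom := by
    apply MvPolynomial.ringHom_ext
    · intro r
      have h1 : (aeval ![u, v] : MvPolynomial (Fin 2) ℂ →ₐ[ℂ] K) (MvPolynomial.C r) =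
        algebraMap ℂ K r := by
        rw [← MvPolynomial.algebraMap_eq, AlgHom.commutes]
      have h2 : φ (MvPolynomial.C r) = Polynomial.C (Polynomial.C r) := by
        rw [← MvPolynomial.algebraMap_eq, AlgHom.commutes]
        rfl
      change (aeval ![u, v] : MvPolynomial (Fin 2) ℂ →ₐ[ℂ] K) (MvPolynomial.C r) =
        AdjoinRoot.mk PF ((φ (MvPolynomial.C r)).map (algebraMap (Polynomial ℂ) F))
      rw [h1, h2, Polynomial.map_C]
      rfl
    · intro i
      change (aeval ![u, v] : MvPolynomial (Fin 2) ℂ →ₐ[ℂ] K) (MvPolynomial.X i) =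
        AdjoinRoot.mk PF ((φ (MvPolynomial.X i)).map (algebraMap (Polynomial ℂ) F))
      fin_cases i
      · simp [φ]
      · simp only [φ, aeval_X]
        simp [v]
  exact congrArg (fun f => f g) this

lemma aeval_ab (a b : ℂ) (g : MvPolynomial (Fin 2) ℂ) :
    aeval ![a, b] g = Polynomial.eval a ((φ g).map (Polynomial.evalRingHom b)) := by
  have : (aeval ![a, b] : MvPolynomial (Fin 2) ℂ →ₐ[ℂ] ℂ).toRingHom =
      ((Polynomial.evalRingHom a).comp (Polynomial.mapRingHom (Polynomial.evalRingHom b))).comp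
        φ.toRingHom := by
    apply MvPolynomial.ringHom_ext
    · intro r
      simp
    · intro i
      fin_cases i
      · simp [φ]
      · simp [φ]
  exact congrArg (fun f => f g) this

/-- The function field of the Fermat curve of degree 16. -/
theorem exists_fermat_field : ∃ (K : Type) (_ : Field K) (_ : Algebra ℂ K) (u v : K),
    u ^ 16 + v ^ 16 + 1 = 0 ∧ Transcendental ℂ v ∧ IntermediateField.adjoin ℂ {u, v} = ⊤ ∧
    ∀ g : MvPolynomial (Fin 2) ℂ, aeval ![u, v] g = 0 ↔
      ∀ a b : ℂ, a ^ 16 + b ^ 16 + 1 = 0 → aeval ![a, b] g = 0 := by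
  have hinj : Function.Injective (algebraMap (Polynomial ℂ) F) :=
    IsFractionRing.injective (Polynomial ℂ) F
  refine ⟨K, inferInstance, inferInstance, u, v, ?_, ?_, ?_, ?_⟩
  · have h1 : Polynomial.eval₂ (AdjoinRoot.of PF) u PF = 0 := AdjoinRoot.eval₂_root PF
    have h2 : Polynomial.eval₂ (AdjoinRoot.of PF) u PF = u ^ 16 + (v ^ 16 + 1) := by
      rw [Polynomial.eval₂_map]
      unfold P
      rw [Polynomial.eval₂_add, Polynomial.eval₂_X_pow, Polynomial.eval₂_C, map_add, map_pow,
        map_one]
      rfl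
    rw [← h1, h2]
    ring
  · have h1 : Function.Injective (algebraMap (Polynomial ℂ) K) := by
      rw [IsScalarTower.algebraMap_eq (Polynomial ℂ) F K]
      exact (algebraMap F K).injective.comp hinj
    have h2 : v = algebraMap (Polynomial ℂ) K Polynomial.X := by
      rw [IsScalarTower.algebraMap_apply (Polynomial ℂ) F K]
    rw [h2, transcendental_algebraMap_iff h1]
    exact Polynomial.transcendental_X ℂ
  · rw [eq_top_iff]
    intro k _
    set L := IntermediateField.adjoin ℂ ({u, v} : Set K) with hL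
    have hu : u ∈ L := IntermediateField.subset_adjoin ℂ _ (by simp)
    have hv : v ∈ L := IntermediateField.subset_adjoin ℂ _ (by simp)
    have hF1 : ∀ x : Polynomial ℂ, algebraMap F K (algebraMap (Polynomial ℂ) F x) ∈ L := by
      intro x
      have : algebraMap F K (algebraMap (Polynomial ℂ) F x) = Polynomial.aeval v x := by
        rw [← IsScalarTower.algebraMap_apply (Polynomial ℂ) F K]
        have h2 : v = algebraMap (Polynomial ℂ) K Polynomial.X := by
          rw [IsScalarTower.algebraMap_apply (Polynomial ℂ) F K]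
        rw [h2, Polynomial.aeval_algebraMap_apply, Polynomial.aeval_X_left_apply]
      rw [this]
      rw [Polynomial.aeval_eq_sum_range]
      refine L.sum_mem fun i _ => ?_
      exact L.smul_mem (pow_mem hv i)
    have hF : ∀ x : F, algebraMap F K x ∈ L := by
      intro x
      obtain ⟨a, b, -, rfl⟩ := IsFractionRing.div_surjective (A := Polynomial ℂ) x
      rw [map_div₀]
      exact L.div_mem (hF1 a) (hF1 b)
    obtain ⟨p, rfl⟩ := AdjoinRoot.mk_surjective k
    rw [← AdjoinRoot.aeval_eq, Polynomial.aeval_eq_sum_range]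
    refine L.sum_mem fun i _ => ?_
    rw [Algebra.smul_def]
    exact L.mul_mem (hF _) (pow_mem hu i)
  · intro g
    rw [aeval_uv, AdjoinRoot.mk_eq_zero, Polynomial.map_dvd_map _ hinj P_monic, dvd_iff]
    simp only [aeval_ab]

end Pool.Agent.TH182.J244
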