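import Pool.Agent.Helper165.Forms
import Pool.Agent.Helper165.NonZero

/-!
Forms regular on local rings of hypersurfaces.
-/

set_option autoImplicit false

open Pool.Agent.Helper165 KaehlerDifferential

namespace Pool.Agent.TH182.TMC

section forms

variable {k K : Type*} [Field k] [Field K] [Algebra k K]

/-- If the differentials of the elements of `O` are `O`-combinations of the differentials of
`v_1, …, v_n` in `O`, then the regular `n`-forms are the multiples of `dv_1 ∧ ⋯ ∧ dv_n`. -/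
lemma regularForms_eq' {n : ℕ} (O : Subring K) (v : Fin n → K) (hv : ∀ i, v i ∈ O)
    (hD : ∀ φ ∈ O, ∃ c : Fin n → K, (∀ j, c j ∈ O) ∧ D k K φ = ∑ j, c j • D k K (v j))
    (η : ⋀[K]^n (Ω[K⁄k])) :
    η ∈ regularForms (differential k K) n (O : Set K) ↔
      ∃ g ∈ (O : Set K), η = g • exteriorPower.ιMulti K n (fun i => D k K (v i)) := by
  constructor
  · intro hη'
    unfold regularForms at hη'
    induction hη' using AddSubgroup.closure_induction with
    | mem x hx =>
      obtain ⟨g, hg, u, hu, rfl⟩ := hx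
      choose c hc hc' using fun i => hD (u i) (hu i)
      refine ⟨g * Matrix.det (Matrix.of c), O.mul_mem hg ?_, ?_⟩
      · rw [Matrix.det_apply]
        refine O.sum_mem fun σ _ => ?_
        rw [Units.smul_def, zsmul_eq_mul]
        refine O.mul_mem (intCast_mem O _) (O.prod_mem fun i _ => ?_)
        exact hc _ _
      · have h1 : (fun i => D k K (u i)) = fun i => ∑ j, (Matrix.of c) i j • D k K (v j) := by
          funext i
          rw [hc' i]
          rfl
        have h2 : (fun i => differential k K (u i)) = (fun i => D k K (u i)) := rfl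
        rw [h2, h1, alternating_det, smul_smul]
    | zero => exact ⟨0, O.zero_mem, by simp⟩
    | add x y hx0 hy0 hx hy =>
      obtain ⟨g, hg, rfl⟩ := hx
      obtain ⟨h, hh, rfl⟩ := hy
      exact ⟨g + h, O.add_mem hg hh, (add_smul g h _).symm⟩
    | neg x hx0 hx =>
      obtain ⟨g, hg, rfl⟩ := hx
      exact ⟨-g, O.neg_mem hg, (neg_smul g _).symm⟩
  · rintro ⟨g, hg, rfl⟩
    exact AddSubgroup.subset_closure ⟨g, hg, v, hv, rfl⟩

/-- Good coordinates for the forms on `O`, compared with the functions `X`. -/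
def Good {n : ℕ} (k : Type*) {K : Type*} [Field k] [Field K] [Algebra k K] (O : Subring K)
    (X : Fin n → K) : Prop :=
  ∃ v : Fin n → K, (∀ i, v i ∈ O) ∧
    (∀ φ ∈ O, ∃ c : Fin n → K, (∀ j, c j ∈ O) ∧ D k K φ = ∑ j, c j • D k K (v j)) ∧
    ∃ N : Matrix (Fin n) (Fin n) K, (∀ i, D k K (X i) = ∑ j, N i j • D k K (v j)) ∧
      N.det ∈ O ∧ N.det⁻¹ ∈ O

lemma isGenerator_of_good {n : ℕ} (O : Subring K) (X : Fin n → K)
    (h0 : exteriorPower.ιMulti K n (fun i => D k K (X i)) ≠ 0) (h : Good k O X) :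
    IsGenerator (differential k K) n (O : Set K)
      (exteriorPower.ιMulti K n (fun i => D k K (X i))) := by
  obtain ⟨v, hv, hD, N, hN, h1, h2⟩ := h
  refine ⟨h0, fun η => ?_⟩
  have e : exteriorPower.ιMulti K n (fun i => D k K (X i)) =
      N.det • exteriorPower.ιMulti K n (fun i => D k K (v i)) := by
    have h1 : (fun i => D k K (X i)) = fun i => ∑ j, N i j • D k K (v j) := by
      funext i
      rw [hN i]
    rw [h1, alternating_det]
  have hdet : N.det ≠ 0 := by
    intro h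
    apply h0
    rw [e, h, zero_smul]
  rw [regularForms_eq' O v hv hD, e]
  constructor
  · rintro ⟨g, hg, rfl⟩
    refine ⟨g * N.det⁻¹, O.mul_mem hg h2, ?_⟩
    rw [smul_smul, mul_assoc, inv_mul_cancel₀ hdet, mul_one]
  · rintro ⟨g, hg, rfl⟩
    exact ⟨g * N.det, O.mul_mem hg h1, by rw [smul_smul]⟩

end forms

section hyp

variable {K : Type*} [Field K] [Algebra ℂ K]

/-- Elimination of one of four differentials. -/
lemma elim4 (O : Subring K) (hk : ∀ c : ℂ, algebraMap ℂ K c ∈ O) (t : Fin 4 → K)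
    (ht : ∀ i, t i ∈ O)
    (hO : ∀ φ ∈ O, ∃ a ∈ Algebra.adjoin ℂ (Set.range t), ∃ s ∈ Algebra.adjoin ℂ (Set.range t),
      s ≠ 0 ∧ s⁻¹ ∈ O ∧ φ = a / s) (m : Fin 4) (e : Fin 3 → K) (he : ∀ j, e j ∈ O)
    (hm : D ℂ K (t m) = ∑ j, e j • D ℂ K (t (m.succAbove j))) (φ : K) (hφ : φ ∈ O) :
    ∃ c : Fin 3 → K, (∀ j, c j ∈ O) ∧ D ℂ K φ = ∑ j, c j • D ℂ K (t (m.succAbove j)) := by
  obtain ⟨c, hc, hc'⟩ := D_mem O t hk ht hO φ hφ
  refine ⟨fun j => c m * e j + c (m.succAbove j), fun j => O.add_mem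
    (O.mul_mem (hc m) (he j)) (hc _), ?_⟩
  rw [hc', Fin.sum_univ_succAbove _ m, hm, Finset.smul_sum, ← Finset.sum_add_distrib]
  refine Finset.sum_congr rfl fun j _ => ?_
  rw [add_smul, mul_smul]

end hyp

end Pool.Agent.TH182.TMC
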