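import Pool.Agent.TH182.J302a

/-!
The residue forms of the two hypersurfaces.
-/

set_option autoImplicit false

open Pool.Agent.Helper165 KaehlerDifferential

namespace Pool.Agent.TH182.TMC

variable {K : Type*} [Field K] [Algebra ℂ K]

lemma Good.perm {n : ℕ} {O : Subring K} {X : Fin n → K} (h : Good ℂ O X)
    (σ : Equiv.Perm (Fin n)) : Good ℂ O (X ∘ σ) := by
  obtain ⟨v, hv, hD, N, hN, h1, h2⟩ := h
  refine ⟨v, hv, hD, N.submatrix σ id, fun i => hN (σ i), ?_, ?_⟩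
  · rw [Matrix.det_permute]
    exact O.mul_mem (intCast_mem O _) h1
  · rw [Matrix.det_permute, mul_inv]
    refine O.mul_mem ?_ h2
    rcases Int.units_eq_one_or (Equiv.Perm.sign σ) with h | h
    · rw [h]; simp [O.one_mem]
    · rw [h]; simp [O.neg_mem O.one_mem]

/-- Elements of `O` are fractions of elements of the algebra generated by `t`. -/
def Frac {ι : Type*} (O : Subring K) (t : ι → K) : Prop :=
  ∀ φ ∈ O, ∃ a ∈ Algebra.adjoin ℂ (Set.range t), ∃ s ∈ Algebra.adjoin ℂ (Set.range t),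
      s ≠ 0 ∧ s⁻¹ ∈ O ∧ φ = a / s

lemma Frac.mono {ι ι' : Type*} {O : Subring K} {t : ι → K} {t' : ι' → K} (h : Frac O t)
    (htt : ∀ i, ∃ i', t' i' = t i) : Frac O t' := by
  intro φ hφ
  obtain ⟨a, ha, s, hs, h1⟩ := h φ hφ
  have hle : Algebra.adjoin ℂ (Set.range t) ≤ Algebra.adjoin ℂ (Set.range t') := by
    apply Algebra.adjoin_mono
    rintro _ ⟨i, rfl⟩
    obtain ⟨i', hi'⟩ := htt i
    exact ⟨i', hi'⟩
  exact ⟨a, hle ha, s, hle hs, h1⟩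

lemma ofNat_inv_mem (O : Subring K) (hk : ∀ c : ℂ, algebraMap ℂ K c ∈ O) (q : ℂ) (q' : K)
    (h : algebraMap ℂ K q = q') : q' ∈ O := h ▸ hk q

lemma three_ne : (3 : K) ≠ 0 := by
  have h : algebraMap ℂ K 3 = 3 := map_ofNat _ 3
  rw [← h]
  exact (map_ne_zero _).2 (by norm_num)

lemma four_ne : (4 : K) ≠ 0 := by
  have h : algebraMap ℂ K 4 = 4 := map_ofNat _ 4
  rw [← h]
  exact (map_ne_zero _).2 (by norm_num)

lemma three_inv_mem (O : Subring K) (hk : ∀ c : ℂ, algebraMap ℂ K c ∈ O) : (3 : K)⁻¹ ∈ O := by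
  have h : algebraMap ℂ K 3⁻¹ = 3⁻¹ := by rw [map_inv₀, map_ofNat]
  rw [← h]; exact hk _

lemma four_inv_mem (O : Subring K) (hk : ∀ c : ℂ, algebraMap ℂ K c ∈ O) : (4 : K)⁻¹ ∈ O := by
  have h : algebraMap ℂ K 4⁻¹ = 4⁻¹ := by rw [map_inv₀, map_ofNat]
  rw [← h]; exact hk _

lemma D_inv (c : K) (hc : c ≠ 0) : D ℂ K c⁻¹ = (-(c⁻¹ * c⁻¹)) • D ℂ K c := by
  have h := congrArg (D ℂ K) (mul_inv_cancel₀ hc)
  rw [Derivation.leibniz, Derivation.map_one_eq_zero] at h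
  have h2 : c⁻¹ • (c • D ℂ K c⁻¹ + c⁻¹ • D ℂ K c) = 0 := by rw [h, smul_zero]
  rw [smul_add, smul_smul, smul_smul, inv_mul_cancel₀ hc, one_smul] at h2
  rw [neg_smul]
  exact eq_neg_of_add_eq_zero_left h2

lemma D_div (b c : K) (hc : c ≠ 0) :
    D ℂ K (b / c) = c⁻¹ • D ℂ K b - (b * (c⁻¹ * c⁻¹)) • D ℂ K c := by
  rw [div_eq_mul_inv, Derivation.leibniz, D_inv c hc, smul_smul, sub_eq_add_neg, ← neg_smul,
    add_comm]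
  congr 2
  ring

section chart

variable (O : Subring K) (a b c d : K)

lemma chart_rel (rel : d ^ 3 + (1 + b ^ 3 + a * c ^ 4) = 0) :
    (3 * d ^ 2) • D ℂ K d + (3 * b ^ 2) • D ℂ K b + c ^ 4 • D ℂ K a +
      (4 * a * c ^ 3) • D ℂ K c = 0 := by
  have h := congrArg (D ℂ K) rel
  rw [map_zero, map_add, map_add, map_add, Derivation.map_one_eq_zero, Derivation.leibniz,
    Derivation.leibniz_pow, Derivation.leibniz_pow, Derivation.leibniz_pow] at h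
  rw [← h]
  module

lemma chart_good_d (hk : ∀ q : ℂ, algebraMap ℂ K q ∈ O)
    (rel : d ^ 3 + (1 + b ^ 3 + a * c ^ 4) = 0) (ha : a ∈ O) (hb : b ∈ O) (hc : c ∈ O)
    (hd : d ∈ O) (hO : Frac O ![a, b, c, d]) (hc0 : c ≠ 0) (hd0 : d ≠ 0) (hdi : d⁻¹ ∈ O) :
    Good ℂ O ![c⁻¹, b / c, d / c] := by
  have h3 := three_ne (K := K)
  have hrel := chart_rel a b c d rel
  have hDd : D ℂ K d = (-(3⁻¹ * (d⁻¹ * d⁻¹) * c ^ 4)) • D ℂ K a +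
      (-(b ^ 2 * (d⁻¹ * d⁻¹))) • D ℂ K b + (-(4 * a * c ^ 3 * (3⁻¹ * (d⁻¹ * d⁻¹)))) • D ℂ K c := by
    have h : (3⁻¹ * (d⁻¹ * d⁻¹)) • ((3 * d ^ 2) • D ℂ K d + (3 * b ^ 2) • D ℂ K b +
        c ^ 4 • D ℂ K a + (4 * a * c ^ 3) • D ℂ K c) = 0 := by
      rw [hrel, smul_zero]
    have e1 : (3⁻¹ * (d⁻¹ * d⁻¹)) * (3 * d ^ 2) = 1 := by field_simp
    have e2 : (3⁻¹ * (d⁻¹ * d⁻¹)) * (3 * b ^ 2) = b ^ 2 * (d⁻¹ * d⁻¹) := by field_simp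
    rw [smul_add, smul_add, smul_add, smul_smul, smul_smul, smul_smul, smul_smul, e1, e2,
      one_smul] at h
    rw [← sub_eq_zero, ← h]
    module
  let e : Fin 3 → K := ![-(3⁻¹ * (d⁻¹ * d⁻¹) * c ^ 4), -(b ^ 2 * (d⁻¹ * d⁻¹)),
    -(4 * a * c ^ 3 * (3⁻¹ * (d⁻¹ * d⁻¹)))]
  have h3i := three_inv_mem O hk
  have h4 : (4 : K) ∈ O := by
    have h : algebraMap ℂ K 4 = 4 := map_ofNat _ 4
    rw [← h]; exact hk _
  have hdd := O.mul_mem hdi hdi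
  have he : ∀ j, e j ∈ O := by
    intro j
    fin_cases j
    · exact O.neg_mem (O.mul_mem (O.mul_mem h3i hdd) (O.pow_mem hc 4))
    · exact O.neg_mem (O.mul_mem (O.pow_mem hb 2) hdd)
    · exact O.neg_mem (O.mul_mem (O.mul_mem (O.mul_mem h4 ha) (O.pow_mem hc 3))
        (O.mul_mem h3i hdd))
  refine ⟨![a, b, c], ?_, ?_, !![0, 0, -(c⁻¹ * c⁻¹); 0, c⁻¹, -(b * (c⁻¹ * c⁻¹));
    c⁻¹ * e 0, c⁻¹ * e 1, c⁻¹ * e 2 - d * (c⁻¹ * c⁻¹)], ?_, ?_⟩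
  · intro i; fin_cases i
    · exact ha
    · exact hb
    · exact hc
  · intro φ hφ
    obtain ⟨f, hf, hf'⟩ := elim4 O hk ![a, b, c, d]
      (by intro i; fin_cases i; exacts [ha, hb, hc, hd]) hO 3 e he (by
        rw [Fin.sum_univ_three]
        exact hDd) φ hφ
    refine ⟨f, hf, ?_⟩
    rw [hf', Fin.sum_univ_three, Fin.sum_univ_three]
    rfl
  · intro i
    rw [Fin.sum_univ_three]
    fin_cases i
    · change D ℂ K c⁻¹ = (0 : K) • D ℂ K a + (0 : K) • D ℂ K b + (-(c⁻¹ * c⁻¹)) • D ℂ K c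
      rw [D_inv c hc0]
      module
    · change D ℂ K (b / c) = (0 : K) • D ℂ K a + (c⁻¹) • D ℂ K b +
        (-(b * (c⁻¹ * c⁻¹))) • D ℂ K c
      rw [D_div b c hc0]
      module
    · change D ℂ K (d / c) = (c⁻¹ * e 0) • D ℂ K a + (c⁻¹ * e 1) • D ℂ K b +
        (c⁻¹ * e 2 - d * (c⁻¹ * c⁻¹)) • D ℂ K c
      have e0 : e 0 = -(3⁻¹ * (d⁻¹ * d⁻¹) * c ^ 4) := rfl
      have e1 : e 1 = -(b ^ 2 * (d⁻¹ * d⁻¹)) := rfl
      have e2 : e 2 = -(4 * a * c ^ 3 * (3⁻¹ * (d⁻¹ * d⁻¹))) := rfl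
      rw [D_div d c hc0, hDd, e0, e1, e2]
      module
  · have e0 : e 0 = -(3⁻¹ * (d⁻¹ * d⁻¹) * c ^ 4) := rfl
    have hdet : Matrix.det !![0, 0, -(c⁻¹ * c⁻¹); 0, c⁻¹, -(b * (c⁻¹ * c⁻¹));
        c⁻¹ * e 0, c⁻¹ * e 1, c⁻¹ * e 2 - d * (c⁻¹ * c⁻¹)] = -(3⁻¹ * (d⁻¹ * d⁻¹)) := by
      rw [Matrix.det_fin_three]
      simp only [Matrix.of_apply, Matrix.cons_val', Matrix.cons_val_zero, Matrix.cons_val_one,
        Matrix.cons_val, e0]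
      field_simp
      ring
    rw [hdet]
    refine ⟨O.neg_mem (O.mul_mem h3i hdd), ?_⟩
    have : (-(3⁻¹ * (d⁻¹ * d⁻¹)))⁻¹ = -(algebraMap ℂ K 3 * (d * d)) := by
      rw [map_ofNat]
      field_simp
    rw [this]
    exact O.neg_mem (O.mul_mem (hk _) (O.mul_mem hd hd))

lemma chart_good_b (hk : ∀ q : ℂ, algebraMap ℂ K q ∈ O)
    (rel : d ^ 3 + (1 + b ^ 3 + a * c ^ 4) = 0) (ha : a ∈ O) (hb : b ∈ O) (hc : c ∈ O)
    (hd : d ∈ O) (hO : Frac O ![a, b, c, d]) (hc0 : c ≠ 0) (hb0 : b ≠ 0) (hbi : b⁻¹ ∈ O) :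
    Good ℂ O ![c⁻¹, b / c, d / c] := by
  have h := (chart_good_d O a d c b hk (by linear_combination rel) ha hd hc hb
    (hO.mono (by
      intro i
      fin_cases i
      exacts [⟨0, rfl⟩, ⟨3, rfl⟩, ⟨2, rfl⟩, ⟨1, rfl⟩])) hc0 hb0 hbi).perm (Equiv.swap 1 2)
  convert h using 1
  funext i
  fin_cases i <;> rfl

lemma chart_good_c (hk : ∀ q : ℂ, algebraMap ℂ K q ∈ O)
    (rel : d ^ 3 + (1 + b ^ 3 + a * c ^ 4) = 0) (ha : a ∈ O) (hb : b ∈ O) (hc : c ∈ O)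
    (hd : d ∈ O) (hO : Frac O ![a, b, c, d]) (hc0 : c ≠ 0) (hci : c⁻¹ ∈ O) :
    Good ℂ O ![c⁻¹, b / c, d / c] := by
  have hrel := chart_rel a b c d rel
  have hDa : D ℂ K a = (-(c⁻¹ ^ 4 * (3 * b ^ 2))) • D ℂ K b +
      (-(c⁻¹ ^ 4 * (4 * a * c ^ 3))) • D ℂ K c + (-(c⁻¹ ^ 4 * (3 * d ^ 2))) • D ℂ K d := by
    have h : (c⁻¹ ^ 4) • ((3 * d ^ 2) • D ℂ K d + (3 * b ^ 2) • D ℂ K b +
        c ^ 4 • D ℂ K a + (4 * a * c ^ 3) • D ℂ K c) = 0 := by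
      rw [hrel, smul_zero]
    have e1 : c⁻¹ ^ 4 * c ^ 4 = 1 := by field_simp
    rw [smul_add, smul_add, smul_add, smul_smul, smul_smul, smul_smul, smul_smul, e1,
      one_smul] at h
    rw [← sub_eq_zero, ← h]
    module
  let e : Fin 3 → K := ![-(c⁻¹ ^ 4 * (3 * b ^ 2)), -(c⁻¹ ^ 4 * (4 * a * c ^ 3)),
    -(c⁻¹ ^ 4 * (3 * d ^ 2))]
  have h3 : (3 : K) ∈ O := by
    have h : algebraMap ℂ K 3 = 3 := map_ofNat _ 3
    rw [← h]; exact hk _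
  have h4 : (4 : K) ∈ O := by
    have h : algebraMap ℂ K 4 = 4 := map_ofNat _ 4
    rw [← h]; exact hk _
  have he : ∀ j, e j ∈ O := by
    intro j
    fin_cases j
    · exact O.neg_mem (O.mul_mem (O.pow_mem hci 4) (O.mul_mem h3 (O.pow_mem hb 2)))
    · exact O.neg_mem (O.mul_mem (O.pow_mem hci 4) (O.mul_mem (O.mul_mem h4 ha)
        (O.pow_mem hc 3)))
    · exact O.neg_mem (O.mul_mem (O.pow_mem hci 4) (O.mul_mem h3 (O.pow_mem hd 2)))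
  refine ⟨![b, c, d], ?_, ?_, !![0, -(c⁻¹ * c⁻¹), 0; c⁻¹, -(b * (c⁻¹ * c⁻¹)), 0;
    0, - (d * (c⁻¹ * c⁻¹)), c⁻¹], ?_, ?_⟩
  · intro i; fin_cases i
    · exact hb
    · exact hc
    · exact hd
  · intro φ hφ
    obtain ⟨f, hf, hf'⟩ := elim4 O hk ![a, b, c, d]
      (by intro i; fin_cases i; exacts [ha, hb, hc, hd]) hO 0 e he (by
        rw [Fin.sum_univ_three]
        exact hDa) φ hφ
    refine ⟨f, hf, ?_⟩
    rw [hf', Fin.sum_univ_three, Fin.sum_univ_three]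
    rfl
  · intro i
    rw [Fin.sum_univ_three]
    fin_cases i
    · change D ℂ K c⁻¹ = (0 : K) • D ℂ K b + (-(c⁻¹ * c⁻¹)) • D ℂ K c + (0 : K) • D ℂ K d
      rw [D_inv c hc0]
      module
    · change D ℂ K (b / c) = (c⁻¹) • D ℂ K b +
        (-(b * (c⁻¹ * c⁻¹))) • D ℂ K c + (0 : K) • D ℂ K d
      rw [D_div b c hc0]
      module
    · change D ℂ K (d / c) = (0 : K) • D ℂ K b +
        (- (d * (c⁻¹ * c⁻¹))) • D ℂ K c + (c⁻¹) • D ℂ K d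
      rw [D_div d c hc0]
      module
  · have hdet : Matrix.det !![0, -(c⁻¹ * c⁻¹), 0; c⁻¹, -(b * (c⁻¹ * c⁻¹)), 0;
        0, - (d * (c⁻¹ * c⁻¹)), c⁻¹] = c⁻¹ ^ 4 := by
      rw [Matrix.det_fin_three]
      simp only [Matrix.of_apply, Matrix.cons_val', Matrix.cons_val_zero, Matrix.cons_val_one,
        Matrix.cons_val]
      ring
    rw [hdet]
    refine ⟨O.pow_mem hci 4, ?_⟩
    rw [← inv_pow, inv_inv]
    exact O.pow_mem hc 4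

end chart

section base

variable (O : Subring K) (a b c u : K)

lemma base_rel (rel : u ^ 4 + (a ^ 3 + b ^ 3 + c ^ 3) = 0) :
    (4 * u ^ 3) • D ℂ K u + (3 * a ^ 2) • D ℂ K a + (3 * b ^ 2) • D ℂ K b +
      (3 * c ^ 2) • D ℂ K c = 0 := by
  have h := congrArg (D ℂ K) rel
  rw [map_zero, map_add, map_add, map_add,
    Derivation.leibniz_pow, Derivation.leibniz_pow, Derivation.leibniz_pow,
    Derivation.leibniz_pow] at h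
  rw [← h]
  module

lemma base_good_u (hk : ∀ q : ℂ, algebraMap ℂ K q ∈ O)
    (rel : u ^ 4 + (a ^ 3 + b ^ 3 + c ^ 3) = 0) (ha : a ∈ O) (hb : b ∈ O) (hc : c ∈ O)
    (hu : u ∈ O) (hO : Frac O ![a, b, c, u]) (hu0 : u ≠ 0) (hui : u⁻¹ ∈ O) :
    Good ℂ O ![a / u, b / u, c / u] := by
  have h4 := four_ne (K := K)
  have hrel := base_rel a b c u rel
  have hDu : D ℂ K u = (-(4⁻¹ * u⁻¹ ^ 3 * (3 * a ^ 2))) • D ℂ K a +
      (-(4⁻¹ * u⁻¹ ^ 3 * (3 * b ^ 2))) • D ℂ K b +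
      (-(4⁻¹ * u⁻¹ ^ 3 * (3 * c ^ 2))) • D ℂ K c := by
    have h : (4⁻¹ * u⁻¹ ^ 3) • ((4 * u ^ 3) • D ℂ K u + (3 * a ^ 2) • D ℂ K a +
        (3 * b ^ 2) • D ℂ K b + (3 * c ^ 2) • D ℂ K c) = 0 := by
      rw [hrel, smul_zero]
    have e1 : (4⁻¹ * u⁻¹ ^ 3) * (4 * u ^ 3) = 1 := by field_simp
    rw [smul_add, smul_add, smul_add, smul_smul, smul_smul, smul_smul, smul_smul, e1,
      one_smul] at h
    rw [← sub_eq_zero, ← h]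
    module
  let e : Fin 3 → K := ![-(4⁻¹ * u⁻¹ ^ 3 * (3 * a ^ 2)), -(4⁻¹ * u⁻¹ ^ 3 * (3 * b ^ 2)),
    -(4⁻¹ * u⁻¹ ^ 3 * (3 * c ^ 2))]
  have h4i := four_inv_mem O hk
  have h3 : (3 : K) ∈ O := by
    have h : algebraMap ℂ K 3 = 3 := map_ofNat _ 3
    rw [← h]; exact hk _
  have he : ∀ j, e j ∈ O := by
    intro j
    fin_cases j
    · exact O.neg_mem (O.mul_mem (O.mul_mem h4i (O.pow_mem hui 3)) (O.mul_mem h3
        (O.pow_mem ha 2)))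
    · exact O.neg_mem (O.mul_mem (O.mul_mem h4i (O.pow_mem hui 3)) (O.mul_mem h3
        (O.pow_mem hb 2)))
    · exact O.neg_mem (O.mul_mem (O.mul_mem h4i (O.pow_mem hui 3)) (O.mul_mem h3
        (O.pow_mem hc 2)))
  refine ⟨![a, b, c], ?_, ?_, !![u⁻¹ - a * (u⁻¹ * u⁻¹) * e 0, - (a * (u⁻¹ * u⁻¹) * e 1),
      - (a * (u⁻¹ * u⁻¹) * e 2);
      - (b * (u⁻¹ * u⁻¹) * e 0), u⁻¹ - b * (u⁻¹ * u⁻¹) * e 1, - (b * (u⁻¹ * u⁻¹) * e 2);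
      - (c * (u⁻¹ * u⁻¹) * e 0), - (c * (u⁻¹ * u⁻¹) * e 1),
      u⁻¹ - c * (u⁻¹ * u⁻¹) * e 2], ?_, ?_⟩
  · intro i; fin_cases i
    · exact ha
    · exact hb
    · exact hc
  · intro φ hφ
    obtain ⟨f, hf, hf'⟩ := elim4 O hk ![a, b, c, u]
      (by intro i; fin_cases i; exacts [ha, hb, hc, hu]) hO 3 e he (by
        rw [Fin.sum_univ_three]
        exact hDu) φ hφ
    refine ⟨f, hf, ?_⟩
    rw [hf', Fin.sum_univ_three, Fin.sum_univ_three]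
    rfl
  · have e0 : e 0 = -(4⁻¹ * u⁻¹ ^ 3 * (3 * a ^ 2)) := rfl
    have e1 : e 1 = -(4⁻¹ * u⁻¹ ^ 3 * (3 * b ^ 2)) := rfl
    have e2 : e 2 = -(4⁻¹ * u⁻¹ ^ 3 * (3 * c ^ 2)) := rfl
    intro i
    rw [Fin.sum_univ_three]
    fin_cases i
    · change D ℂ K (a / u) = (u⁻¹ - a * (u⁻¹ * u⁻¹) * e 0) • D ℂ K a +
        (- (a * (u⁻¹ * u⁻¹) * e 1)) • D ℂ K b + (- (a * (u⁻¹ * u⁻¹) * e 2)) • D ℂ K c
      rw [D_div a u hu0, hDu, e0, e1, e2]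
      module
    · change D ℂ K (b / u) = (- (b * (u⁻¹ * u⁻¹) * e 0)) • D ℂ K a +
        (u⁻¹ - b * (u⁻¹ * u⁻¹) * e 1) • D ℂ K b + (- (b * (u⁻¹ * u⁻¹) * e 2)) • D ℂ K c
      rw [D_div b u hu0, hDu, e0, e1, e2]
      module
    · change D ℂ K (c / u) = (- (c * (u⁻¹ * u⁻¹) * e 0)) • D ℂ K a +
        (- (c * (u⁻¹ * u⁻¹) * e 1)) • D ℂ K b + (u⁻¹ - c * (u⁻¹ * u⁻¹) * e 2) • D ℂ K c
      rw [D_div c u hu0, hDu, e0, e1, e2]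
      module
  · have e0 : e 0 = -(4⁻¹ * u⁻¹ ^ 3 * (3 * a ^ 2)) := rfl
    have e1 : e 1 = -(4⁻¹ * u⁻¹ ^ 3 * (3 * b ^ 2)) := rfl
    have e2 : e 2 = -(4⁻¹ * u⁻¹ ^ 3 * (3 * c ^ 2)) := rfl
    have hdet : Matrix.det !![u⁻¹ - a * (u⁻¹ * u⁻¹) * e 0, - (a * (u⁻¹ * u⁻¹) * e 1),
      - (a * (u⁻¹ * u⁻¹) * e 2);
      - (b * (u⁻¹ * u⁻¹) * e 0), u⁻¹ - b * (u⁻¹ * u⁻¹) * e 1, - (b * (u⁻¹ * u⁻¹) * e 2);
      - (c * (u⁻¹ * u⁻¹) * e 0), - (c * (u⁻¹ * u⁻¹) * e 1),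
      u⁻¹ - c * (u⁻¹ * u⁻¹) * e 2] = 4⁻¹ * u⁻¹ ^ 3 := by
      rw [Matrix.det_fin_three]
      simp only [Matrix.of_apply, Matrix.cons_val', Matrix.cons_val_zero, Matrix.cons_val_one,
        Matrix.cons_val, e0, e1, e2]
      have hr : a ^ 3 + b ^ 3 + c ^ 3 = - u ^ 4 := by linear_combination rel
      have : (u⁻¹) ^ 3 * (1 + 3 * 4⁻¹ * u⁻¹ ^ 4 * (a ^ 3 + b ^ 3 + c ^ 3)) =
          4⁻¹ * u⁻¹ ^ 3 := by
        rw [hr]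
        field_simp
        ring
      refine Eq.trans ?_ this
      field_simp
      ring
    rw [hdet]
    refine ⟨O.mul_mem h4i (O.pow_mem hui 3), ?_⟩
    have : (4⁻¹ * u⁻¹ ^ 3)⁻¹ = algebraMap ℂ K 4 * u ^ 3 := by
      rw [map_ofNat]
      field_simp
    rw [this]
    exact O.mul_mem (hk _) (O.pow_mem hu 3)

lemma base_good_a (hk : ∀ q : ℂ, algebraMap ℂ K q ∈ O)
    (rel : u ^ 4 + (a ^ 3 + b ^ 3 + c ^ 3) = 0) (ha : a ∈ O) (hb : b ∈ O) (hc : c ∈ O)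
    (hu : u ∈ O) (hO : Frac O ![a, b, c, u]) (hu0 : u ≠ 0) (ha0 : a ≠ 0) (hai : a⁻¹ ∈ O) :
    Good ℂ O ![a / u, b / u, c / u] := by
  have h3' := three_ne (K := K)
  have hrel := base_rel a b c u rel
  have hDa : D ℂ K a = (-(3⁻¹ * a⁻¹ ^ 2 * (3 * b ^ 2))) • D ℂ K b +
      (-(3⁻¹ * a⁻¹ ^ 2 * (3 * c ^ 2))) • D ℂ K c +
      (-(3⁻¹ * a⁻¹ ^ 2 * (4 * u ^ 3))) • D ℂ K u := by
    have h : (3⁻¹ * a⁻¹ ^ 2) • ((4 * u ^ 3) • D ℂ K u + (3 * a ^ 2) • D ℂ K a +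
        (3 * b ^ 2) • D ℂ K b + (3 * c ^ 2) • D ℂ K c) = 0 := by
      rw [hrel, smul_zero]
    have e1 : (3⁻¹ * a⁻¹ ^ 2) * (3 * a ^ 2) = 1 := by field_simp
    rw [smul_add, smul_add, smul_add, smul_smul, smul_smul, smul_smul, smul_smul, e1,
      one_smul] at h
    rw [← sub_eq_zero, ← h]
    module
  let e : Fin 3 → K := ![-(3⁻¹ * a⁻¹ ^ 2 * (3 * b ^ 2)), -(3⁻¹ * a⁻¹ ^ 2 * (3 * c ^ 2)),
    -(3⁻¹ * a⁻¹ ^ 2 * (4 * u ^ 3))]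
  have h3i := three_inv_mem O hk
  have h3 : (3 : K) ∈ O := by
    have h : algebraMap ℂ K 3 = 3 := map_ofNat _ 3
    rw [← h]; exact hk _
  have h4 : (4 : K) ∈ O := by
    have h : algebraMap ℂ K 4 = 4 := map_ofNat _ 4
    rw [← h]; exact hk _
  have he : ∀ j, e j ∈ O := by
    intro j
    fin_cases j
    · exact O.neg_mem (O.mul_mem (O.mul_mem h3i (O.pow_mem hai 2)) (O.mul_mem h3
        (O.pow_mem hb 2)))
    · exact O.neg_mem (O.mul_mem (O.mul_mem h3i (O.pow_mem hai 2)) (O.mul_mem h3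
        (O.pow_mem hc 2)))
    · exact O.neg_mem (O.mul_mem (O.mul_mem h3i (O.pow_mem hai 2)) (O.mul_mem h4
        (O.pow_mem hu 3)))
  refine ⟨![b, c, u], ?_, ?_, !![u⁻¹ * e 0, u⁻¹ * e 1, u⁻¹ * e 2 - a * (u⁻¹ * u⁻¹);
      u⁻¹, 0, - (b * (u⁻¹ * u⁻¹)); 0, u⁻¹, - (c * (u⁻¹ * u⁻¹))], ?_, ?_⟩
  · intro i; fin_cases i
    · exact hb
    · exact hc
    · exact hu
  · intro φ hφ
    obtain ⟨f, hf, hf'⟩ := elim4 O hk ![a, b, c, u]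
      (by intro i; fin_cases i; exacts [ha, hb, hc, hu]) hO 0 e he (by
        rw [Fin.sum_univ_three]
        exact hDa) φ hφ
    refine ⟨f, hf, ?_⟩
    rw [hf', Fin.sum_univ_three, Fin.sum_univ_three]
    rfl
  · have e0 : e 0 = -(3⁻¹ * a⁻¹ ^ 2 * (3 * b ^ 2)) := rfl
    have e1 : e 1 = -(3⁻¹ * a⁻¹ ^ 2 * (3 * c ^ 2)) := rfl
    have e2 : e 2 = -(3⁻¹ * a⁻¹ ^ 2 * (4 * u ^ 3)) := rfl
    intro i
    rw [Fin.sum_univ_three]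
    fin_cases i
    · change D ℂ K (a / u) = (u⁻¹ * e 0) • D ℂ K b + (u⁻¹ * e 1) • D ℂ K c +
        (u⁻¹ * e 2 - a * (u⁻¹ * u⁻¹)) • D ℂ K u
      rw [D_div a u hu0, hDa, e0, e1, e2]
      module
    · change D ℂ K (b / u) = (u⁻¹) • D ℂ K b + (0 : K) • D ℂ K c +
        (- (b * (u⁻¹ * u⁻¹))) • D ℂ K u
      rw [D_div b u hu0]
      module
    · change D ℂ K (c / u) = (0 : K) • D ℂ K b + (u⁻¹) • D ℂ K c +
        (- (c * (u⁻¹ * u⁻¹))) • D ℂ K u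
      rw [D_div c u hu0]
      module
  · have e0 : e 0 = -(3⁻¹ * a⁻¹ ^ 2 * (3 * b ^ 2)) := rfl
    have e1 : e 1 = -(3⁻¹ * a⁻¹ ^ 2 * (3 * c ^ 2)) := rfl
    have e2 : e 2 = -(3⁻¹ * a⁻¹ ^ 2 * (4 * u ^ 3)) := rfl
    have hdet : Matrix.det !![u⁻¹ * e 0, u⁻¹ * e 1, u⁻¹ * e 2 - a * (u⁻¹ * u⁻¹);
      u⁻¹, 0, - (b * (u⁻¹ * u⁻¹)); 0, u⁻¹, - (c * (u⁻¹ * u⁻¹))] = -(3⁻¹ * a⁻¹ ^ 2) := by
      rw [Matrix.det_fin_three]
      simp only [Matrix.of_apply, Matrix.cons_val', Matrix.cons_val_zero, Matrix.cons_val_one,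
        Matrix.cons_val, e0, e1, e2]
      have hr : a ^ 3 + b ^ 3 + c ^ 3 = - u ^ 4 := by linear_combination rel
      have : - (a⁻¹ ^ 2 * u⁻¹ ^ 4 * (a ^ 3 + b ^ 3 + c ^ 3)) - 4 * (3⁻¹ * a⁻¹ ^ 2) =
          -(3⁻¹ * a⁻¹ ^ 2) := by
        rw [hr]
        field_simp
        ring
      refine Eq.trans ?_ this
      field_simp
      ring
    rw [hdet]
    refine ⟨O.neg_mem (O.mul_mem h3i (O.pow_mem hai 2)), ?_⟩
    have : (-(3⁻¹ * a⁻¹ ^ 2))⁻¹ = -(algebraMap ℂ K 3 * a ^ 2) := by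
      rw [map_ofNat]
      field_simp
    rw [this]
    exact O.neg_mem (O.mul_mem (hk _) (O.pow_mem ha 2))

lemma base_good_b (hk : ∀ q : ℂ, algebraMap ℂ K q ∈ O)
    (rel : u ^ 4 + (a ^ 3 + b ^ 3 + c ^ 3) = 0) (ha : a ∈ O) (hb : b ∈ O) (hc : c ∈ O)
    (hu : u ∈ O) (hO : Frac O ![a, b, c, u]) (hu0 : u ≠ 0) (hb0 : b ≠ 0) (hbi : b⁻¹ ∈ O) :
    Good ℂ O ![a / u, b / u, c / u] := by
  have h := (base_good_a O b a c u hk (by linear_combination rel) hb ha hc hu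
    (hO.mono (by
      intro i
      fin_cases i
      exacts [⟨1, rfl⟩, ⟨0, rfl⟩, ⟨2, rfl⟩, ⟨3, rfl⟩])) hu0 hb0 hbi).perm (Equiv.swap 0 1)
  convert h using 1
  funext i
  fin_cases i <;> rfl

lemma base_good_c (hk : ∀ q : ℂ, algebraMap ℂ K q ∈ O)
    (rel : u ^ 4 + (a ^ 3 + b ^ 3 + c ^ 3) = 0) (ha : a ∈ O) (hb : b ∈ O) (hc : c ∈ O)
    (hu : u ∈ O) (hO : Frac O ![a, b, c, u]) (hu0 : u ≠ 0) (hc0 : c ≠ 0) (hci : c⁻¹ ∈ O) :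
    Good ℂ O ![a / u, b / u, c / u] := by
  have h := (base_good_a O c b a u hk (by linear_combination rel) hc hb ha hu
    (hO.mono (by
      intro i
      fin_cases i
      exacts [⟨2, rfl⟩, ⟨1, rfl⟩, ⟨0, rfl⟩, ⟨3, rfl⟩])) hu0 hc0 hci).perm (Equiv.swap 0 2)
  convert h using 1
  funext i
  fin_cases i <;> rfl

end base

end Pool.Agent.TH182.TMC
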