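import Pool.Agent.TH182.J302b
import Pool.Agent.TH215.TM.Defs2
import Pool.Agent.Helper165.Geom3
import Pool.Agent.Helper165.Const

set_option autoImplicit false
open CategoryTheory Limits AlgebraicGeometry Abelian HomogeneousLocalization
open Pool.Agent.Helper165 Pool.Agent.TH215.TM

namespace Pool.Agent.TH182.TMC

theorem exists_chart_mem (y : YY) : y ∈ (blowChart J3 wR wR_mem).opensRange ∨
    ∃ i : Fin 3, y ∈ (blowChart J3 (xR i) (xR_mem i)).opensRange := by
  by_contra hcon
  push Not at hcon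
  obtain ⟨h1, h2⟩ := hcon
  refine false_of_span J3 y (Set.range xR ∪ {wR}) rfl ?_
  rintro s (⟨i, rfl⟩ | hs) hsJ
  · by_contra h
    apply h2 i
    rw [blowChart_opensRange]
    exact h
  · rw [Set.mem_singleton_iff] at hs
    subst hs
    by_contra h
    apply h1
    rw [blowChart_opensRange]
    exact h

section scheme

universe u

variable {Y : Scheme.{u}} [IsIntegral Y] {R : Type u} [CommRing R] [Nontrivial R]
  (j : Spec (CommRingCat.of R) ⟶ Y) [IsOpenImmersion j]

lemma inv_gammaMap_mem (z : Spec (CommRingCat.of R)) (h : (𝟙 Y : Y ⟶ Y) (genericPoint Y) ⤳ j z)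
    (s : R) (hs : z ∈ (PrimeSpectrum.basicOpen s : (Spec (CommRingCat.of R)).Opens)) :
    (gammaMap j s)⁻¹ ∈ localSubring (𝟙 Y) (j z) h := by
  have hyV : j z ∈ (j ''ᵁ ⊤ : Y.Opens) := ⟨z, trivial, rfl⟩
  set s' : Γ(Spec (CommRingCat.of R), ⊤) := (Scheme.ΓSpecIso (CommRingCat.of R)).inv s with hs'
  have h1 : (Spec (CommRingCat.of R)).basicOpen s' =
      (PrimeSpectrum.basicOpen s : (Spec (CommRingCat.of R)).Opens) := by
    rw [basicOpen_eq_of_affine']
    congr 1
    have := congrArg (fun g => g.hom s) (Scheme.ΓSpecIso (CommRingCat.of R)).inv_hom_id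
    exact this
  have h2 : j ''ᵁ (Spec (CommRingCat.of R)).basicOpen s' = Y.basicOpen (thetaMap j s) :=
    Scheme.image_basicOpen j s'
  have h3 : j z ∈ Y.basicOpen (thetaMap j s) := by
    rw [← h2, h1]
    exact ⟨z, hs, rfl⟩
  rw [Scheme.mem_basicOpen _ _ _ hyV] at h3
  obtain ⟨t, ht⟩ := h3.exists_right_inv
  refine ⟨t, ?_⟩
  have h4 := congrArg (locMap (𝟙 Y) (j z) h).hom ht
  rw [map_mul, map_one] at h4
  have h5 := locMap_germ (𝟙 Y) (j z) h (j ''ᵁ ⊤) hyV
    (mem_of_specializes (𝟙 Y) h hyV) (thetaMap j s)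
  have h6 : gammaMap j s * (locMap (𝟙 Y) (j z) h).hom t = 1 := by
    rw [← h4]
    congr 1
    exact h5.symm
  exact eq_inv_of_mul_eq_one_right h6

end scheme

section gen

variable {K : Type*} [Field K] [Algebra ℂ K]

lemma gen_adjoin (q : Polynomial S3) (γ : AdjoinRoot q →+* K)
    (hγ : ∀ c : ℂ, γ (AdjoinRoot.of q (MvPolynomial.C c)) = algebraMap ℂ K c) (t : Fin 4 → K)
    (h0 : ∀ i : Fin 3, ∃ m, γ (AdjoinRoot.of q (MvPolynomial.X i)) = t m)
    (h1 : ∃ m, γ (AdjoinRoot.root q) = t m) (r : AdjoinRoot q) :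
    γ r ∈ Algebra.adjoin ℂ (Set.range t) := by
  have hX : ∀ p : S3, γ (AdjoinRoot.of q p) ∈ Algebra.adjoin ℂ (Set.range t) := by
    intro p
    induction p using MvPolynomial.induction_on with
    | C c =>
      rw [hγ]
      exact Subalgebra.algebraMap_mem _ _
    | add p p' hp hp' =>
      rw [map_add, map_add]
      exact Subalgebra.add_mem _ hp hp'
    | mul_X p i hp =>
      rw [map_mul, map_mul]
      refine Subalgebra.mul_mem _ hp ?_
      obtain ⟨m, hm⟩ := h0 i
      rw [hm]
      exact Algebra.subset_adjoin ⟨m, rfl⟩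
  induction r using AdjoinRoot.induction_on with
  | ih p =>
    induction p using Polynomial.induction_on' with
    | add p p' hp hp' =>
      rw [map_add, map_add]
      exact Subalgebra.add_mem _ hp hp'
    | monomial n a =>
      rw [← Polynomial.C_mul_X_pow_eq_monomial, map_mul, map_pow, AdjoinRoot.mk_X, map_mul,
        map_pow]
      refine Subalgebra.mul_mem _ (hX a) (Subalgebra.pow_mem _ ?_ n)
      obtain ⟨m, hm⟩ := h1
      rw [hm]
      exact Algebra.subset_adjoin ⟨m, rfl⟩

end gen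

section codim

/-- The restriction of functions to the line `x = y + z = w = 0` on `Spec R`. -/
noncomputable def lineMap : RR →+* Polynomial ℂ :=
  AdjoinRoot.lift (MvPolynomial.eval₂Hom (algebraMap ℂ (Polynomial ℂ))
    ![0, Polynomial.X, -Polynomial.X]) 0 (by
    simp only [Polynomial.eval₂_add, Polynomial.eval₂_pow, Polynomial.eval₂_X,
      Polynomial.eval₂_C, g3, map_add, map_pow, MvPolynomial.coe_eval₂Hom,
      MvPolynomial.eval₂_X, MvPolynomial.eval₂_pow, MvPolynomial.eval₂_add]
    simp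
    ring)

lemma lineMap_xR (i : Fin 3) : lineMap (xR i) = ![0, Polynomial.X, -Polynomial.X] i := by
  unfold lineMap xR
  rw [AdjoinRoot.lift_of]
  exact MvPolynomial.eval₂_X _ _ _

lemma lineMap_wR : lineMap wR = 0 := by
  unfold lineMap wR
  rw [AdjoinRoot.lift_root]

lemma lineMap_C (c : ℂ) : lineMap (algebraMap ℂ RR c) = Polynomial.C c := by
  have h : algebraMap ℂ RR c = AdjoinRoot.of _ (MvPolynomial.C c) := rfl
  rw [h]
  unfold lineMap
  rw [AdjoinRoot.lift_of]
  exact MvPolynomial.eval₂_C _ _ _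

lemma mk_eq_const : Ideal.Quotient.mk J3 =
    ((algebraMap ℂ (RR ⧸ J3)).comp ((Polynomial.constantCoeff).comp lineMap)) := by
  apply AdjoinRoot.ringHom_ext
  · apply MvPolynomial.ringHom_ext
    · intro c
      simp only [RingHom.comp_apply]
      have h : (AdjoinRoot.of (Polynomial.X ^ 4 + Polynomial.C g3 : Polynomial S3))
        (MvPolynomial.C c) = algebraMap ℂ RR c := rfl
      rw [h, lineMap_C]
      simp only [Polynomial.constantCoeff_apply, Polynomial.coeff_C_zero]
      rfl
    · intro i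
      simp only [RingHom.comp_apply]
      have h : (AdjoinRoot.of (Polynomial.X ^ 4 + Polynomial.C g3 : Polynomial S3))
        (MvPolynomial.X i) = xR i := rfl
      rw [h, lineMap_xR, (Ideal.Quotient.eq_zero_iff_mem).2 (xR_mem i)]
      fin_cases i <;> simp
  · simp only [RingHom.comp_apply]
    have h : AdjoinRoot.root (Polynomial.X ^ 4 + Polynomial.C g3 : Polynomial S3) = wR := rfl
    rw [h, lineMap_wR, (Ideal.Quotient.eq_zero_iff_mem).2 wR_mem]
    simp

lemma ker_le : RingHom.ker lineMap ≤ J3 := by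
  intro r hr
  rw [RingHom.mem_ker] at hr
  rw [← Ideal.Quotient.eq_zero_iff_mem, mk_eq_const, RingHom.comp_apply, RingHom.comp_apply, hr]
  simp

/-- A point of codimension one of `Spec R` does not contain all the coordinates. -/
lemma exists_notMem_of_coheight [IsDomain RR] (hw0 : wR ≠ 0) (ξ : XX)
    (hξ : Order.coheight ξ = 1) :
    wR ∉ PrimeSpectrum.asIdeal (R := RR) ξ ∨ ∃ i, xR i ∉ PrimeSpectrum.asIdeal (R := RR) ξ := by
  by_contra hcon
  push Not at hcon
  obtain ⟨hw, hx⟩ := hcon
  have hJ : J3 ≤ PrimeSpectrum.asIdeal (R := RR) ξ := by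
    unfold J3
    rw [Ideal.span_le]
    rintro z (⟨i, rfl⟩ | hz)
    · exact hx i
    · rw [Set.mem_singleton_iff] at hz
      subst hz
      exact hw
  let q : XX := (⟨RingHom.ker lineMap, RingHom.ker_isPrime lineMap⟩ : PrimeSpectrum RR)
  let η : XX := (⊥ : PrimeSpectrum RR)
  have hspec : ∀ a b : XX,
      PrimeSpectrum.asIdeal (R := RR) a ≤
        PrimeSpectrum.asIdeal (R := RR) b ↔ a ⤳ b :=
    fun a b => PrimeSpectrum.le_iff_specializes a b
  have h1 : ξ < q := by
    refine ⟨?_, ?_⟩
    · change q ⤳ ξ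
      rw [← hspec]
      exact ker_le.trans hJ
    · intro h
      have h' : ξ ⤳ q := h
      rw [← hspec] at h'
      have h2 : lineMap (xR 1) = 0 := h' (hx 1)
      rw [lineMap_xR] at h2
      simp at h2
  have h2 : q < η := by
    refine ⟨?_, ?_⟩
    · change η ⤳ q
      rw [← hspec]
      exact bot_le
    · intro h
      have h' : q ⤳ η := h
      rw [← hspec] at h'
      have h2 : wR ∈ (⊥ : Ideal RR) := h' lineMap_wR
      exact hw0 h2
  let S : LTSeries XX :=
    { length := 2
      toFun := ![ξ, q, η]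
      step := by
        intro m
        fin_cases m
        · exact h1
        · exact h2 }
  have h3 := Order.length_le_coheight_head (p := S)
  have h4 : S.head = ξ := rfl
  rw [h4, hξ] at h3
  have h5 : S.length = 2 := rfl
  rw [h5] at h3
  norm_num at h3

end codim

section maps

lemma cW_xR (i : Fin 3) : cW (xR i) = MvPolynomial.X i * wS := by
  unfold cW xR
  rw [AdjoinRoot.lift_of]
  exact MvPolynomial.eval₂_X _ _ _

lemma cW_wR : cW wR = wS := by
  unfold cW wR
  rw [AdjoinRoot.lift_root]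

lemma cW_C (c : ℂ) : cW (algebraMap ℂ RR c) = MvPolynomial.C c := by
  have h : algebraMap ℂ RR c = AdjoinRoot.of _ (MvPolynomial.C c) := rfl
  rw [h]
  unfold cW
  rw [AdjoinRoot.lift_of]
  exact MvPolynomial.eval₂_C _ _ _

lemma cX_xR (i j : Fin 3) : cX i (xR j) = cV i j := by
  unfold cX xR
  rw [AdjoinRoot.lift_of]
  exact MvPolynomial.eval₂_X _ _ _

lemma cX_wR (i : Fin 3) : cX i wR = bV 0 * bV 2 := by
  unfold cX wR
  rw [AdjoinRoot.lift_root]

lemma cX_C (i : Fin 3) (c : ℂ) : cX i (algebraMap ℂ RR c) = algebraMap ℂ BB c := by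
  have h : algebraMap ℂ RR c = AdjoinRoot.of _ (MvPolynomial.C c) := rfl
  rw [h]
  unfold cX
  rw [AdjoinRoot.lift_of]
  exact MvPolynomial.eval₂_C _ _ _

lemma wS_ne_zero : wS ≠ 0 := by
  intro h
  have h2 := congrArg (MvPolynomial.eval (fun _ => (1 : ℂ))) h
  simp [wS, g3] at h2
  norm_num at h2

lemma wR_ne_zero : wR ≠ 0 := by
  intro h
  apply wS_ne_zero
  rw [← cW_wR, h, map_zero]

lemma chartMap_injective {A : Type} [CommRing A] [IsDomain A] (J : Ideal A) (a : A) (ha : a ∈ J)
    (ha0 : a ≠ 0) : Function.Injective (chartMap J a ha) := by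
  have hga : algebraMap A (FractionRing A) a ≠ 0 := by
    intro h
    exact ha0 ((map_eq_zero_iff _ (IsFractionRing.injective A (FractionRing A))).1 h)
  have h := psi_chartMap J (algebraMap A (FractionRing A)) a ha hga
  intro b c hbc
  apply IsFractionRing.injective A (FractionRing A)
  rw [← h b, ← h c, hbc]

end maps

end Pool.Agent.TH182.TMC
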