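import Mathlib
import Pool.Agent.TH27.FS.Defs

set_option autoImplicit false

namespace Pool.Agent.TH182.J513

open Pool.Agent.TH27.FS

variable {A : Type}

/-- one period of the test point -/
noncomputable def B (r : ℕ) (o e : A) (X : ℤ → A) (t : ℤ) : A :=
  open Classical in
  if -(r : ℤ) ≤ t ∧ t ≤ r then X t
  else if -(3 * (r : ℤ) + 1) ≤ t ∧ t ≤ 3 * r + 1 then e else o

/-- the test point -/
noncomputable def Y (r k : ℕ) (o e : A) (X : ℤ → A) (i : ℤ) : A :=
  B r o e X ((i + (3 * r + 1)) % k - (3 * r + 1))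

section
variable {r k : ℕ} {o e : A} {X : ℤ → A}

lemma Y_per (t i : ℤ) : Y r k o e X (i + t * k) = Y r k o e X i := by
  unfold Y
  congr 2
  rw [show i + t * k + (3 * r + 1) = i + (3 * r + 1) + t * k by ring, Int.add_mul_emod_self_right]

lemma Y_eq {i : ℤ} (h1 : -(3 * (r : ℤ) + 1) ≤ i) (h2 : i + (3 * r + 1) < k) :
    Y r k o e X i = B r o e X i := by
  unfold Y
  rw [Int.emod_eq_of_lt (by omega) h2]
  congr 1
  ring

lemma Y_mid (hk : 14 * r + 10 ≤ k) {i : ℤ} (h1 : -(r : ℤ) ≤ i) (h2 : i ≤ r) :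
    Y r k o e X i = X i := by
  rw [Y_eq (by omega) (by omega)]
  unfold B
  rw [if_pos ⟨h1, h2⟩]

lemma Y_o {i : ℤ} (h1 : 3 * (r : ℤ) + 2 ≤ i) (h2 : i + (3 * r + 1) < k) :
    Y r k o e X i = o := by
  rw [Y_eq (by omega) h2]
  unfold B
  rw [if_neg (by omega), if_neg (by omega)]

lemma Y_e (hk : 14 * r + 10 ≤ k) : Y r k o e X (3 * r + 1) = e := by
  rw [Y_eq (by omega) (by omega)]
  unfold B
  rw [if_neg (by omega), if_pos (by omega)]

lemma Y_e' (hk : 14 * r + 10 ≤ k) : Y r k o e X (-(3 * r + 1)) = e := by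
  rw [Y_eq (by omega) (by omega)]
  unfold B
  rw [if_neg (by omega), if_pos (by omega)]

lemma Y_LP (hk : 14 * r + 10 ≤ k) (hoe : o ≠ e) : LP k (Y r k o e X) := by
  constructor
  · intro i
    have := Y_per (r := r) (k := k) (o := o) (e := e) (X := X) 1 i
    rwa [one_mul] at this
  · intro s hs0 hsk
    by_cases hs : s ≤ k - 2 * (3 * r + 1) - 1
    · refine ⟨3 * r + 1, ?_⟩
      rw [Y_e hk, Y_o (by omega) (by omega)]
      exact hoe
    · refine ⟨3 * r + 1 + (k - s), ?_⟩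
      have h1 : Y r k o e X (3 * r + 1 + (k - s) + s) = e := by
        have := Y_per (r := r) (k := k) (o := o) (e := e) (X := X) 1 (3 * r + 1)
        rw [Y_e hk] at this
        rw [← this]
        congr 1
        ring
      rw [h1, Y_o (by omega) (by omega)]
      exact hoe.symm

/-- the residue of a position -/
lemma exists_res (a : ℤ) (hk : 14 * r + 10 ≤ k) : ∃ t ρ : ℤ, a = ρ + t * k ∧
    -(3 * (r : ℤ) + 1) ≤ ρ ∧ ρ + (3 * r + 1) < k := by
  have hk0 : (0 : ℤ) < k := by omega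
  refine ⟨(a + (3 * r + 1)) / k, (a + (3 * r + 1)) % k - (3 * r + 1), ?_, ?_, ?_⟩
  · have := Int.emod_add_mul_ediv (a + (3 * r + 1)) k
    linarith [mul_comm (k : ℤ) ((a + (3 * r + 1)) / k)]
  · have := Int.emod_nonneg (a + (3 * r + 1)) hk0.ne'
    omega
  · have := Int.emod_lt_of_pos (a + (3 * r + 1)) hk0
    omega

end

lemma shift_of_theta (g : AutG A) {r k : ℕ} {o e : A} (hoe : o ≠ e)
    (hr : ∀ (x y : ℤ → A) (n : ℤ), (∀ i, n - r ≤ i → i ≤ n + r → x i = y i) → g.1 x n = g.1 y n)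
    (hk : 14 * r + 10 ≤ k) (hθ : theta A k g = 1) (X : ℤ → A) :
    ∃ j : ℤ, -(r : ℤ) ≤ j ∧ j ≤ r ∧ ∀ i, g.1 (Y r k o e X) i = Y r k o e X (i + j) := by
  set y : ℤ → A := Y r k o e X with hy
  -- some shift
  obtain ⟨j, hj⟩ : ∃ j : ℤ, ∀ i, g.1 y i = y (i + j) := by
    have h1 := theta_mk (k := k) g ⟨y, Y_LP hk hoe⟩
    rw [hθ] at h1
    have h2 : (Quotient.mk _ ⟨y, Y_LP hk hoe⟩ : Orb A k) =
      Quotient.mk _ (mapPP g ⟨y, Y_LP hk hoe⟩) := h1
    obtain ⟨n, hn⟩ := Quotient.exact h2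
    refine ⟨n, fun i => ?_⟩
    have h3 : g.1 y = sh n y := hn
    rw [h3]
    rfl
  -- the constant configuration is fixed
  have hconst : ∀ n : ℤ, g.1 (fun _ => o) n = g.1 (fun _ => o) 0 := by
    intro n
    have h1 := congrFun (AutG.comm g n (fun _ => o)) 0
    simp only [sh_apply, zero_add] at h1
    rw [← h1]
    rfl
  have hrun : ∀ i : ℤ, 4 * (r : ℤ) + 2 ≤ i → i + (4 * r + 2) ≤ k →
      g.1 y i = g.1 (fun _ => o) 0 := by
    intro i h1 h2
    rw [← hconst i]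
    apply hr
    intro i' h3 h4
    exact Y_o (by omega) (by omega)
  obtain ⟨t, ρ, ha, hρ1, hρ2⟩ := exists_res (r := r) (k := k) (4 * r + 2 + j) hk
  have hval : ∀ i i' : ℤ, i + j = i' + t * k → y (i + j) = y i' := by
    intro i i' h
    rw [h, hy, Y_per]
  have hc : g.1 (fun _ => o) 0 = o := by
    by_cases hρ : ρ ≤ 3 * r + 1
    · have h1 := hrun (4 * r + 2 + (3 * r + 2 - ρ)) (by omega) (by omega)
      rw [hj, hval _ (3 * r + 2) (by omega)] at h1
      rw [← h1]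
      exact Y_o (by omega) (by omega)
    · have h1 := hrun (4 * r + 2) (by omega) (by omega)
      rw [hj, hval _ ρ (by omega)] at h1
      rw [← h1]
      exact Y_o (by omega) (by omega)
  rw [hc] at hrun
  have hρ3 : 3 * (r : ℤ) + 2 ≤ ρ := by
    by_contra hcon
    have h1 := hrun (4 * r + 2 + (3 * r + 1 - ρ)) (by omega) (by omega)
    rw [hj, hval _ (3 * r + 1) (by omega), hy, Y_e hk] at h1
    exact hoe h1.symm
  have hρ4 : ρ ≤ 5 * (r : ℤ) + 2 := by
    by_contra hcon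
    have h1 := hrun (4 * r + 2 + (k - (3 * r + 1) - ρ)) (by omega) (by omega)
    have h2 : y (4 * r + 2 + (k - (3 * r + 1) - ρ) + j) = e := by
      rw [hval _ (-(3 * r + 1) + 1 * k) (by linarith), hy, Y_per, Y_e' hk]
    rw [hj, h2] at h1
    exact hoe h1.symm
  refine ⟨j - t * k, by omega, by omega, fun i => ?_⟩
  rw [hj]
  have := Y_per (r := r) (k := k) (o := o) (e := e) (X := X) t (i + (j - t * k))
  rw [← hy] at this
  rw [← this]
  congr 1
  ring

lemma shift_unique (g : AutG A) {r k : ℕ} {o e : A} (hoe : o ≠ e)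
    (hr : ∀ (x y : ℤ → A) (n : ℤ), (∀ i, n - r ≤ i → i ≤ n + r → x i = y i) → g.1 x n = g.1 y n)
    (hk : 14 * r + 10 ≤ k) (X X' : ℤ → A) (j j' : ℤ) (h1 : -(r : ℤ) ≤ j) (h2 : j ≤ r)
    (h3 : -(r : ℤ) ≤ j') (h4 : j' ≤ r) (h5 : ∀ i, g.1 (Y r k o e X) i = Y r k o e X (i + j))
    (h6 : ∀ i, g.1 (Y r k o e X') i = Y r k o e X' (i + j')) : j' ≤ j := by
  by_contra hcon
  have h7 : g.1 (Y r k o e X) (3 * r + 1 - j) = g.1 (Y r k o e X') (3 * r + 1 - j) := by
    apply hr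
    intro i hi1 hi2
    rw [Y_eq (by omega) (by omega), Y_eq (by omega) (by omega)]
    unfold B
    have h8 : ¬(-(r : ℤ) ≤ i ∧ i ≤ r) := by omega
    rw [if_neg h8, if_neg h8]
  rw [h5, h6, sub_add_cancel, Y_e hk, Y_o (by omega) (by omega)] at h7
  exact hoe h7.symm

/-- An automorphism acting trivially on the orbits of least period `k` for arbitrarily large `k`
is central (in fact a power of the shift). -/
theorem mem_center_of_theta {A : Type} [Nontrivial A] (g : AutG A)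
    (h : ∀ K : ℕ, ∃ k ≥ K, theta A k g = 1) : g ∈ Subgroup.center (AutG A) := by
  obtain ⟨o, e, hoe⟩ := exists_pair_ne A
  obtain ⟨r, hr⟩ := AutG.loc g
  obtain ⟨k, hk, hθ⟩ := h (14 * r + 10)
  obtain ⟨j, hj1, hj2, hj⟩ := shift_of_theta g hoe hr hk hθ (fun _ => o)
  have key0 : ∀ X : ℤ → A, g.1 X 0 = X j := by
    intro X
    obtain ⟨j', hj1', hj2', hj'⟩ := shift_of_theta g hoe hr hk hθ X
    have e1 : j' = j := le_antisymm
      (shift_unique g hoe hr hk (fun _ => o) X j j' hj1 hj2 hj1' hj2' hj hj')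
      (shift_unique g hoe hr hk X (fun _ => o) j' j hj1' hj2' hj1 hj2 hj' hj)
    have e2 : g.1 X 0 = g.1 (Y r k o e X) 0 := by
      apply hr
      intro i h1 h2
      exact (Y_mid hk (by omega) (by omega)).symm
    rw [e2, hj', zero_add, e1, Y_mid hk hj1 hj2]
  have key : ∀ X : ℤ → A, g.1 X = sh j X := by
    intro X
    funext n
    have h1 := congrFun (AutG.comm g n X) 0
    rw [key0] at h1
    simp only [sh_apply, zero_add] at h1
    rw [← h1, sh_apply, add_comm]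
  rw [Subgroup.mem_center_iff]
  intro f
  apply AutG.ext'
  intro x
  rw [AutG.mul_apply, AutG.mul_apply, key, key, AutG.comm f]

end Pool.Agent.TH182.J513

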